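import Mathlib
import Pool.Agent.H402R3.Params

/-! Existence of good parameters: all conditions hold for large `lam`. -/

open Set Finset Filter Topology

namespace Pool.Agent.H402R3

noncomputable def gg (γ lam : ℝ) (n : ℕ) : ℝ := γ * Real.exp (5 / 2 * LL lam n)
noncomputable def muu (m lam : ℝ) (n : ℕ) : ℝ := m * Real.exp (2 * LL lam n)
noncomputable def ss (s lam : ℝ) (n : ℕ) : ℝ := s * Real.exp (5 / 2 * LL lam n) * EE lam n
noncomputable def kk (k lam : ℝ) (n : ℕ) : ℝ := k * EE lam n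
noncomputable def QQ (lam : ℝ) (n : ℕ) : ℝ := Real.exp (1 / 2 * LL lam n) / 256
noncomputable def Lam (K lam : ℝ) (n : ℕ) : ℝ := K * (1 + LL lam n)
noncomputable def rr (n : ℕ) : ℝ := 1 / 64 ^ n
noncomputable def etaa (C lam : ℝ) (n : ℕ) : ℝ :=
  2 * C * (Real.exp (5 / 2 * LL lam (n + 1)) * EE lam (n + 1))

theorem ev_master (C : ℝ) : ∀ᶠ lam in (atTop : Filter ℝ), 1 ≤ lam ∧ ∀ n i j : ℕ, i ≤ 3 → j ≤ 2 →
    C * ((64 : ℝ) ^ n) ^ i * (1 + LL lam n) ^ j ≤ Real.exp (LL lam n / 50) := by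
  obtain ⟨l0, hl0, h⟩ := master |C|
  filter_upwards [eventually_ge_atTop l0] with lam hlam
  refine ⟨hl0.trans hlam, fun n i j hi hj => ?_⟩
  have hL : 0 ≤ LL lam n := by linarith [LL_ge (by linarith : (0:ℝ) ≤ lam) n]
  have hp : (1 : ℝ) ≤ 64 ^ n := one_le_pow₀ (by norm_num)
  calc C * ((64 : ℝ) ^ n) ^ i * (1 + LL lam n) ^ j
      ≤ |C| * ((64 : ℝ) ^ n) ^ 3 * (1 + LL lam n) ^ 2 := by
        refine mul_le_mul (mul_le_mul (le_abs_self C) (pow_le_pow_right₀ hp hi) (by positivity)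
          (abs_nonneg _)) (pow_le_pow_right₀ (by linarith) hj) (by positivity) (by positivity)
    _ = |C| * 262144 ^ n * (1 + LL lam n) ^ 2 := by
        rw [← pow_mul, mul_comm n 3, pow_mul]; norm_num
    _ ≤ _ := h lam hlam n

theorem ev_beats (b A : ℝ) (hb : 0 < b) : ∀ᶠ lam in (atTop : Filter ℝ), ∀ n : ℕ,
    A * LL lam n ≤ Real.exp (b * LL lam n) := by
  obtain ⟨x0, hx0, h⟩ := exp_beats b A hb
  filter_upwards [eventually_ge_atTop x0] with lam hlam n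
  exact h _ (hlam.trans (LL_ge (by linarith) n))

theorem ev_EE_le : ∀ᶠ lam in (atTop : Filter ℝ), ∀ n : ℕ, EE lam n ≤ Real.exp (-(40 * LL lam n)) := by
  obtain ⟨x0, hx0, h⟩ := EE_le
  filter_upwards [eventually_ge_atTop x0] with lam hlam n
  exact h _ hlam n

theorem ev_L_ge (c : ℝ) : ∀ᶠ lam in (atTop : Filter ℝ), ∀ n : ℕ, c ≤ LL lam n := by
  filter_upwards [eventually_ge_atTop (max c 0)] with lam hlam n
  exact (le_max_left _ _).trans (hlam.trans (LL_ge ((le_max_right _ _).trans hlam) n))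

/-- `C p^i (1+x)^j e^{a x} ≤ e^{b x}` -/
theorem ev_dom (C : ℝ) (i j : ℕ) (hi : i ≤ 3) (hj : j ≤ 2) (a b : ℝ) (hab : a + 1 / 50 ≤ b) :
    ∀ᶠ lam in (atTop : Filter ℝ), ∀ n : ℕ,
    C * ((64 : ℝ) ^ n) ^ i * (1 + LL lam n) ^ j * Real.exp (a * LL lam n)
      ≤ Real.exp (b * LL lam n) := by
  filter_upwards [ev_master C, ev_L_ge 0] with lam hlam h0 n
  calc C * ((64 : ℝ) ^ n) ^ i * (1 + LL lam n) ^ j * Real.exp (a * LL lam n)
      ≤ Real.exp (LL lam n / 50) * Real.exp (a * LL lam n) :=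
        mul_le_mul_of_nonneg_right (hlam.2 n i j hi hj) (Real.exp_pos _).le
    _ = Real.exp (LL lam n / 50 + a * LL lam n) := by rw [Real.exp_add]
    _ ≤ _ := Real.exp_le_exp.mpr (by nlinarith [h0 n])

/-- `C e^{a x} ≤ exp (b e^{c x})` -/
theorem ev_dexp (C a b c : ℝ) (hb : 0 < b) (hc : 0 < c) :
    ∀ᶠ lam in (atTop : Filter ℝ), ∀ n : ℕ,
    C * Real.exp (a * LL lam n) ≤ Real.exp (b * Real.exp (c * LL lam n)) := by
  filter_upwards [ev_dom C 0 0 (by norm_num) (by norm_num) a (a + 1 / 50) le_rfl,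
    ev_beats c ((a + 1 / 50) / b) hc] with lam h1 h2 n
  have h3 := h1 n
  simp only [pow_zero, mul_one] at h3
  refine h3.trans (Real.exp_le_exp.mpr ?_)
  have h4 := h2 n
  rw [div_mul_eq_mul_div, div_le_iff₀ hb] at h4
  linarith

theorem EE_add_two (lam : ℝ) (n : ℕ) :
    EE lam (n + 2) = Real.exp (-(Real.exp (1 / 2 * LL lam n) / 16)) := by
  unfold EE
  rw [LL_succ, LL_succ]
  congr 4
  ring

theorem gg_ratio {γ : ℝ} (hγ : 0 < γ) (lam : ℝ) (n : ℕ) :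
    gg γ lam (n + 1) / gg γ lam n = Real.exp (1 / 2 * LL lam n) := by
  unfold gg
  rw [LL_succ, mul_div_mul_left _ _ hγ.ne', ← Real.exp_sub]
  congr 1; ring

theorem gg_pos {γ : ℝ} (hγ : 0 < γ) (lam : ℝ) (n : ℕ) : 0 < gg γ lam n :=
  mul_pos hγ (Real.exp_pos _)

theorem ev_two {γ : ℝ} (hγ : 0 < γ) : ∀ᶠ lam in (atTop : Filter ℝ), ∀ n : ℕ,
    2 * gg γ lam n ≤ gg γ lam (n + 1) := by
  filter_upwards [ev_L_ge 2] with lam h n
  have h1 := gg_ratio hγ lam n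
  rw [div_eq_iff (gg_pos hγ lam n).ne'] at h1
  rw [h1]
  refine mul_le_mul_of_nonneg_right ?_ (gg_pos hγ lam n).le
  have h2 := Real.add_one_le_exp (1 / 2 * LL lam n)
  linarith [h n]

theorem ev_sumg {γ : ℝ} (hγ : 0 < γ) : ∀ᶠ lam in (atTop : Filter ℝ), ∀ n : ℕ,
    ∑ m ∈ range (n + 1), gg γ lam m ≤ 2 * gg γ lam n := by
  filter_upwards [ev_two hγ] with lam h n
  induction n with
  | zero => simp; linarith [gg_pos hγ lam 0]
  | succ n ih =>
    rw [sum_range_succ]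
    linarith [h n]

theorem ev_w {γ R : ℝ} (hγ : 0 < γ) (hR : 1 ≤ R) : ∀ᶠ lam in (atTop : Filter ℝ), ∀ n : ℕ,
    w (gg γ lam) R n ≤ 2 * R * γ * Real.exp (25 / 12 * LL lam n) := by
  filter_upwards [ev_sumg hγ] with lam h n
  cases n with
  | zero => simp only [w, range_zero, sum_empty, mul_zero]; positivity
  | succ n =>
    unfold w
    have h1 : Real.exp (25 / 12 * LL lam (n + 1)) = Real.exp (5 / 2 * LL lam n) := by
      rw [LL_succ]; congr 1; ring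
    rw [h1]
    calc R * ∑ m ∈ range (n + 1), gg γ lam m ≤ R * (2 * gg γ lam n) :=
          mul_le_mul_of_nonneg_left (h n) (by linarith)
      _ = _ := by unfold gg; ring

theorem rr_pos (n : ℕ) : 0 < rr n := by unfold rr; positivity

theorem ev_c1 {γ m R K : ℝ} (hγ : 0 < γ) (hm : 0 ≤ m) (hR : 1 ≤ R) (hK : 0 < K) :
    ∀ᶠ lam in (atTop : Filter ℝ), ∀ n : ℕ,
    64 * R * Lam K lam n * (w (gg γ lam) R n + muu m lam (n + 1)) ≤ gg γ lam n * rr n ^ 2 := by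
  filter_upwards [ev_w hγ hR, ev_L_ge 0,
    ev_dom (64 * R * K * (2 * R * γ + m) / γ) 2 1 (by norm_num) (by norm_num) (12 / 5) (5 / 2)
      (by norm_num)] with lam hw h0 h n
  have h1 := h n
  have hp : (0 : ℝ) < 64 ^ n := by positivity
  have hL := h0 n
  set x := LL lam n
  have h2 : w (gg γ lam) R n + muu m lam (n + 1) ≤ (2 * R * γ + m) * Real.exp (12 / 5 * x) := by
    have h3 : muu m lam (n + 1) = m * Real.exp (12 / 5 * x) := by
      unfold muu; rw [LL_succ]; congr 2; ring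
    have h4 : Real.exp (25 / 12 * x) ≤ Real.exp (12 / 5 * x) :=
      Real.exp_le_exp.mpr (by linarith)
    have h5 : 2 * R * γ * Real.exp (25 / 12 * x) ≤ 2 * R * γ * Real.exp (12 / 5 * x) :=
      mul_le_mul_of_nonneg_left h4 (by positivity)
    rw [h3]
    linarith [hw n]
  have h6 : 64 * R * Lam K lam n * (w (gg γ lam) R n + muu m lam (n + 1))
      ≤ 64 * R * Lam K lam n * ((2 * R * γ + m) * Real.exp (12 / 5 * x)) :=
    mul_le_mul_of_nonneg_left h2 (by unfold Lam; positivity)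
  refine h6.trans ?_
  unfold rr gg Lam
  rw [div_pow, one_pow, mul_one_div, le_div_iff₀ (by positivity)]
  rw [div_mul_eq_mul_div, div_mul_eq_mul_div, div_mul_eq_mul_div, div_le_iff₀ hγ] at h1
  calc 64 * R * (K * (1 + x)) * ((2 * R * γ + m) * Real.exp (12 / 5 * x)) * (64 ^ n) ^ 2
      = 64 * R * K * (2 * R * γ + m) * (64 ^ n) ^ 2 * (1 + x) ^ 1 * Real.exp (12 / 5 * x) := by ring
    _ ≤ Real.exp (5 / 2 * x) * γ := h1
    _ = γ * Real.exp (5 / 2 * x) := by ring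

theorem D_eq {γ K : ℝ} (hγ : 0 < γ) (lam : ℝ) (n : ℕ) :
    D (gg γ lam) (Lam K lam) rr n
      = 4 * K / γ * (64 ^ n) * (1 + LL lam n) * Real.exp (-(5 / 2) * LL lam n) := by
  unfold D gg Lam rr
  have : Real.exp (-(5 / 2) * LL lam n) = 1 / Real.exp (5 / 2 * LL lam n) := by
    rw [neg_mul, Real.exp_neg, one_div]
  rw [this]
  have h1 := Real.exp_pos (5 / 2 * LL lam n)
  field_simp

theorem ev_c2a {γ s K : ℝ} (hγ : 0 < γ) (hs : 0 < s) (hK : 0 < K) :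
    ∀ᶠ lam in (atTop : Filter ℝ), ∀ n : ℕ,
    D (gg γ lam) (Lam K lam) rr n * ss s lam n ≤ rr n / 16 := by
  filter_upwards [ev_L_ge 0, ev_EE_le,
    ev_dom (16 * (4 * K / γ * s)) 2 1 (by norm_num) (by norm_num) (-1) 0
      (by norm_num)] with lam h0 hE h n
  rw [D_eq hγ]
  have h1 := h n
  have hp : (0 : ℝ) < 64 ^ n := by positivity
  have hL := h0 n
  have hE' := hE n
  unfold ss rr
  set x := LL lam n
  have h2 : Real.exp (-(5 / 2) * x) * Real.exp (5 / 2 * x) = 1 := by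
    rw [← Real.exp_add]; simp
  have h3 : EE lam n ≤ Real.exp (-1 * x) := hE'.trans (Real.exp_le_exp.mpr (by linarith))
  rw [div_div, le_div_iff₀ (by positivity)]
  calc 4 * K / γ * 64 ^ n * (1 + x) * Real.exp (-(5 / 2) * x) *
        (s * Real.exp (5 / 2 * x) * EE lam n) * (64 ^ n * 16)
      = 16 * (4 * K / γ * s) * (64 ^ n) ^ 2 * (1 + x) ^ 1 * EE lam n *
        (Real.exp (-(5 / 2) * x) * Real.exp (5 / 2 * x)) := by ring
    _ = 16 * (4 * K / γ * s) * (64 ^ n) ^ 2 * (1 + x) ^ 1 * EE lam n := by rw [h2, mul_one]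
    _ ≤ 16 * (4 * K / γ * s) * (64 ^ n) ^ 2 * (1 + x) ^ 1 * Real.exp (-1 * x) :=
        mul_le_mul_of_nonneg_left h3 (by positivity)
    _ ≤ Real.exp (0 * x) := h1
    _ = 1 := by simp

theorem ev_c2a' {γ s K : ℝ} (hγ : 0 < γ) (hs : 0 < s) (hK : 0 < K) :
    ∀ᶠ lam in (atTop : Filter ℝ), ∀ n : ℕ,
    D (gg γ lam) (Lam K lam) rr n * ss s lam (n + 1) ≤ rr n / 16 := by
  filter_upwards [ev_L_ge 0, ev_EE_le,
    ev_dom (16 * (4 * K / γ * s)) 2 1 (by norm_num) (by norm_num) (-1) 0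
      (by norm_num)] with lam h0 hE h n
  rw [D_eq hγ]
  have h1 := h n
  have hp : (0 : ℝ) < 64 ^ n := by positivity
  have hL := h0 n
  have hE' := hE (n + 1)
  unfold ss rr
  rw [LL_succ] at *
  set x := LL lam n
  have h3 : Real.exp (-(5 / 2) * x) * Real.exp (5 / 2 * (6 / 5 * x)) * EE lam (n + 1)
      ≤ Real.exp (-1 * x) := by
    calc Real.exp (-(5 / 2) * x) * Real.exp (5 / 2 * (6 / 5 * x)) * EE lam (n + 1)
        ≤ Real.exp (-(5 / 2) * x) * Real.exp (5 / 2 * (6 / 5 * x)) *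
          Real.exp (-(40 * (6 / 5 * x))) := mul_le_mul_of_nonneg_left hE' (by positivity)
      _ = Real.exp (-(5 / 2) * x + 5 / 2 * (6 / 5 * x) + -(40 * (6 / 5 * x))) := by
          rw [Real.exp_add, Real.exp_add]
      _ ≤ _ := Real.exp_le_exp.mpr (by linarith)
  rw [div_div, le_div_iff₀ (by positivity)]
  calc 4 * K / γ * 64 ^ n * (1 + x) * Real.exp (-(5 / 2) * x) *
        (s * Real.exp (5 / 2 * (6 / 5 * x)) * EE lam (n + 1)) * (64 ^ n * 16)
      = 16 * (4 * K / γ * s) * (64 ^ n) ^ 2 * (1 + x) ^ 1 *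
        (Real.exp (-(5 / 2) * x) * Real.exp (5 / 2 * (6 / 5 * x)) * EE lam (n + 1)) := by ring
    _ ≤ 16 * (4 * K / γ * s) * (64 ^ n) ^ 2 * (1 + x) ^ 1 * Real.exp (-1 * x) :=
        mul_le_mul_of_nonneg_left h3 (by positivity)
    _ ≤ Real.exp (0 * x) := h1
    _ = 1 := by simp

theorem delta_eq {γ : ℝ} (hγ : 0 < γ) (lam : ℝ) (n : ℕ) :
    δ (gg γ lam) n = 1 / (128 * γ) * Real.exp (-(5 / 2) * LL lam n) := by
  unfold δ gg
  rw [neg_mul, Real.exp_neg]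
  have h1 := Real.exp_pos (5 / 2 * LL lam n)
  field_simp

theorem ev_c2b {γ k K : ℝ} (hγ : 0 < γ) (hk : 0 ≤ k) (hK : 0 < K) :
    ∀ᶠ lam in (atTop : Filter ℝ), ∀ n : ℕ,
    gg γ lam n * D (gg γ lam) (Lam K lam) rr n * (kk k lam (n + 1) + 2 * δ (gg γ lam) (n + 1) ^ 2)
      ≤ rr n / 16 := by
  filter_upwards [ev_L_ge 0, ev_EE_le,
    ev_dom (16 * (4 * K * (k + 2 * (1 / (128 * γ)) ^ 2))) 2 1 (by norm_num) (by norm_num) (-1) 0
      (by norm_num)] with lam h0 hE h n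
  rw [D_eq hγ, delta_eq hγ]
  have h1 := h n
  have hp : (0 : ℝ) < 64 ^ n := by positivity
  have hL := h0 n
  have hE' := hE (n + 1)
  unfold kk gg rr
  rw [LL_succ] at *
  set x := LL lam n
  have h3 : k * EE lam (n + 1) + 2 * (1 / (128 * γ) * Real.exp (-(5 / 2) * (6 / 5 * x))) ^ 2
      ≤ (k + 2 * (1 / (128 * γ)) ^ 2) * Real.exp (-1 * x) := by
    have e1 : EE lam (n + 1) ≤ Real.exp (-1 * x) := hE'.trans (Real.exp_le_exp.mpr (by linarith))
    have e2 : Real.exp (-(5 / 2) * (6 / 5 * x)) ^ 2 ≤ Real.exp (-1 * x) := by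
      rw [← Real.exp_nat_mul]
      exact Real.exp_le_exp.mpr (by push_cast; linarith)
    rw [mul_pow, add_mul]
    have e3 : k * EE lam (n + 1) ≤ k * Real.exp (-1 * x) := mul_le_mul_of_nonneg_left e1 hk
    have e4 : 2 * ((1 / (128 * γ)) ^ 2 * Real.exp (-(5 / 2) * (6 / 5 * x)) ^ 2)
      ≤ 2 * ((1 / (128 * γ)) ^ 2 * Real.exp (-1 * x)) := by
      refine mul_le_mul_of_nonneg_left (mul_le_mul_of_nonneg_left e2 (by positivity)) (by norm_num)
    linarith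
  have h2 : Real.exp (-(5 / 2) * x) * Real.exp (5 / 2 * x) = 1 := by
    rw [← Real.exp_add]; simp
  rw [div_div, le_div_iff₀ (by positivity)]
  calc γ * Real.exp (5 / 2 * x) * (4 * K / γ * 64 ^ n * (1 + x) * Real.exp (-(5 / 2) * x)) *
        (k * EE lam (n + 1) + 2 * (1 / (128 * γ) * Real.exp (-(5 / 2) * (6 / 5 * x))) ^ 2) *
        (64 ^ n * 16)
      = (Real.exp (-(5 / 2) * x) * Real.exp (5 / 2 * x)) * (γ / γ) * (16 * (4 * K)) * (64 ^ n) ^ 2 * (1 + x) ^ 1 *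
        (k * EE lam (n + 1) + 2 * (1 / (128 * γ) * Real.exp (-(5 / 2) * (6 / 5 * x))) ^ 2) := by
          ring
    _ = (16 * (4 * K)) * (64 ^ n) ^ 2 * (1 + x) ^ 1 *
        (k * EE lam (n + 1) + 2 * (1 / (128 * γ) * Real.exp (-(5 / 2) * (6 / 5 * x))) ^ 2) := by
          rw [h2, div_self hγ.ne']; ring
    _ ≤ (16 * (4 * K)) * (64 ^ n) ^ 2 * (1 + x) ^ 1 *
        ((k + 2 * (1 / (128 * γ)) ^ 2) * Real.exp (-1 * x)) :=
        mul_le_mul_of_nonneg_left h3 (by positivity)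
    _ = 16 * (4 * K * (k + 2 * (1 / (128 * γ)) ^ 2)) * (64 ^ n) ^ 2 * (1 + x) ^ 1 *
        Real.exp (-1 * x) := by ring
    _ ≤ Real.exp (0 * x) := h1
    _ = 1 := by simp

theorem ev_c4 {γ K : ℝ} (hγ : 0 < γ) :
    ∀ᶠ lam in (atTop : Filter ℝ), ∀ n : ℕ, Lam K lam n / 16 ≤ gg γ lam (n + 1) * rr n := by
  filter_upwards [ev_dom (K / (16 * γ)) 1 1 (by norm_num) (by norm_num) 0 3 (by norm_num)]
    with lam h n
  have h1 := h n
  have hp : (0 : ℝ) < 64 ^ n := by positivity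
  unfold gg rr Lam
  rw [LL_succ]
  set x := LL lam n
  have e : Real.exp (5 / 2 * (6 / 5 * x)) = Real.exp (3 * x) := by congr 1; ring
  rw [e, mul_one_div, le_div_iff₀ hp]
  rw [zero_mul, Real.exp_zero, mul_one, pow_one, pow_one, div_mul_eq_mul_div, div_mul_eq_mul_div,
    div_le_iff₀ (by positivity)] at h1
  linarith

theorem ev_c4' {γ : ℝ} (hγ : 0 < γ) :
    ∀ᶠ lam in (atTop : Filter ℝ), ∀ n : ℕ, δ (gg γ lam) n ≤ rr n / 16 := by
  filter_upwards [ev_dom (16 * (1 / (128 * γ))) 1 0 (by norm_num) (by norm_num) (-(5 / 2)) 0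
    (by norm_num)] with lam h n
  have h1 := h n
  have hp : (0 : ℝ) < 64 ^ n := by positivity
  rw [delta_eq hγ]
  unfold rr
  rw [div_div, le_div_iff₀ (by positivity)]
  rw [zero_mul, Real.exp_zero, pow_zero, pow_one, mul_one] at h1
  linarith

end Pool.Agent.H402R3
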