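import Mathlib
import Pool.Agent.H402R3.ParEx

/-! Existence of good parameters, second part. -/

open Set Finset Filter Topology

namespace Pool.Agent.H402R3

/-- the constant used in `Λ` -/
noncomputable def KK (R γ : ℝ) : ℝ := 2 + |Real.log (256 * R * γ)|

theorem KK_pos (R γ : ℝ) : 0 < KK R γ := by unfold KK; positivity

theorem ev_c5 {γ R : ℝ} (hγ : 0 < γ) (hR : 1 ≤ R) :
    ∀ᶠ lam in (atTop : Filter ℝ), ∀ n : ℕ,
    2 * R < δ (gg γ lam) n * Real.exp (2 * Lam (KK R γ) lam n) := by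
  filter_upwards [ev_L_ge 1] with lam h0 n
  rw [delta_eq hγ]
  unfold Lam KK
  have hL := h0 n
  set x := LL lam n
  have h1 : 256 * R * γ = Real.exp (Real.log (256 * R * γ)) := (Real.exp_log (by positivity)).symm
  have h2 : 256 * R * γ < Real.exp (-(5 / 2) * x + 2 * ((2 + |Real.log (256 * R * γ)|) * (1 + x))) := by
    conv_lhs => rw [h1]
    apply Real.exp_lt_exp.mpr
    have h3 := le_abs_self (Real.log (256 * R * γ))
    have h4 := abs_nonneg (Real.log (256 * R * γ))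
    nlinarith
  rw [Real.exp_add] at h2
  rw [mul_assoc, one_div_mul_eq_div, lt_div_iff₀ (by positivity)]
  linarith

theorem ev_c3a {γ k : ℝ} (hγ : 0 < γ) (hk : 0 ≤ k) :
    ∀ᶠ lam in (atTop : Filter ℝ), ∀ n : ℕ,
    kk k lam (n + 2) ≤ δ (gg γ lam) (n + 1) ^ 2 / 2 := by
  filter_upwards [ev_L_ge 0, ev_EE_le, ev_dom (2 * k * (128 * γ) ^ 2) 0 0 (by norm_num) (by norm_num)
    (-1) 0 (by norm_num)] with lam h0 hE h n
  have hL := h0 n
  have hE' := hE (n + 2)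
  have h1 := h n
  rw [delta_eq hγ]
  unfold kk
  rw [LL_succ]
  rw [LL_succ, LL_succ] at hE'
  set x := LL lam n
  have h2 : EE lam (n + 2) ≤ Real.exp (-1 * x) * (Real.exp (-(5 / 2) * (6 / 5 * x))) ^ 2 := by
    rw [← Real.exp_nat_mul, ← Real.exp_add]
    exact hE'.trans (Real.exp_le_exp.mpr (by push_cast; linarith))
  rw [le_div_iff₀ (by norm_num), mul_pow]
  simp only [pow_zero, mul_one, zero_mul, Real.exp_zero] at h1
  have h5 : k * EE lam (n + 2) * 2
      ≤ k * (Real.exp (-1 * x) * (Real.exp (-(5 / 2) * (6 / 5 * x))) ^ 2) * 2 := by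
    exact mul_le_mul_of_nonneg_right (mul_le_mul_of_nonneg_left h2 hk) (by norm_num)
  refine h5.trans ?_
  rw [div_pow, one_pow, one_div_mul_eq_div, le_div_iff₀ (by positivity)]
  have h6 := mul_le_mul_of_nonneg_right h1 (sq_nonneg (Real.exp (-(5 / 2) * (6 / 5 * x))))
  linarith

theorem exp_three {a b c : ℝ} : Real.exp (a + b + c) = Real.exp a * Real.exp b * Real.exp c := by
  rw [Real.exp_add, Real.exp_add]

/-- `2 η_{n+2} e^{...} = 4 C e^{(5/2) (216/125) x} e^{-5 v/128}`, `v = e^{(3/5) x}` -/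
theorem etaa_eq {γ : ℝ} (hγ : 0 < γ) (C lam : ℝ) (n : ℕ) :
    2 * etaa C lam (n + 2) * Real.exp (2 * (QQ lam (n + 1)
      + 1 / 128 * (gg γ lam (n + 2) / gg γ lam (n + 1))))
    = 4 * C * Real.exp (5 / 2 * (6 / 5 * (6 / 5 * (6 / 5 * LL lam n)))) *
      Real.exp (-(5 / 128 * Real.exp (3 / 5 * LL lam n))) := by
  have h1 : gg γ lam (n + 2) / gg γ lam (n + 1) = Real.exp (3 / 5 * LL lam n) := by
    rw [show n + 2 = n + 1 + 1 by ring, gg_ratio hγ, LL_succ]
    congr 1; ring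
  have h2 : QQ lam (n + 1) = Real.exp (3 / 5 * LL lam n) / 256 := by
    unfold QQ; rw [LL_succ]; congr 2; ring
  have h3 : EE lam (n + 2 + 1) = Real.exp (-(Real.exp (3 / 5 * LL lam n) / 16)) := by
    rw [show n + 2 + 1 = n + 1 + 2 by ring, EE_add_two, LL_succ]
    congr 4; ring
  rw [h1, h2]
  unfold etaa
  rw [h3, show n + 2 + 1 = n + 3 by ring, show LL lam (n + 3)
    = 6 / 5 * (6 / 5 * (6 / 5 * LL lam n)) by
      rw [show n + 3 = n + 2 + 1 by ring, LL_succ, LL_succ, LL_succ]]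
  have h4 : Real.exp (-(5 / 128 * Real.exp (3 / 5 * LL lam n)))
      = Real.exp (-(Real.exp (3 / 5 * LL lam n) / 16)) *
        Real.exp (2 * (Real.exp (3 / 5 * LL lam n) / 256
          + 1 / 128 * Real.exp (3 / 5 * LL lam n))) := by
    rw [← Real.exp_add]; congr 1; ring
  rw [h4]
  ring

theorem ev_c3b {γ C : ℝ} (hγ : 0 < γ) :
    ∀ᶠ lam in (atTop : Filter ℝ), ∀ n : ℕ,
    2 * etaa C lam (n + 2) * Real.exp (2 * (QQ lam (n + 1)
      + 1 / 128 * (gg γ lam (n + 2) / gg γ lam (n + 1)))) ≤ δ (gg γ lam) (n + 1) ^ 2 / 2 := by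
  filter_upwards [ev_dexp (8 * C * (128 * γ) ^ 2) (5 / 2 * (6 / 5 * (6 / 5 * (6 / 5))) + 6)
    (5 / 128) (3 / 5) (by norm_num) (by norm_num)] with lam h n
  rw [etaa_eq hγ, delta_eq hγ, LL_succ]
  have h1 := h n
  set x := LL lam n
  rw [Real.exp_neg, ← div_eq_mul_inv, div_le_iff₀ (Real.exp_pos _)]
  have h2 : Real.exp (-(5 / 2) * (6 / 5 * x)) ^ 2 * Real.exp (6 * x) = 1 := by
    rw [← Real.exp_nat_mul, ← Real.exp_add, ← Real.exp_zero]
    congr 1; push_cast; ring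
  have h3 : (5 / 2 * (6 / 5 * (6 / 5 * (6 / 5))) + 6) * x
    = 5 / 2 * (6 / 5 * (6 / 5 * (6 / 5 * x))) + 6 * x := by ring
  rw [h3, Real.exp_add] at h1
  have h4 := mul_le_mul_of_nonneg_right h1 (sq_nonneg (Real.exp (-(5 / 2) * (6 / 5 * x))))
  have h5 : 8 * C * (128 * γ) ^ 2 * (Real.exp (5 / 2 * (6 / 5 * (6 / 5 * (6 / 5 * x)))) *
      Real.exp (6 * x)) * Real.exp (-(5 / 2) * (6 / 5 * x)) ^ 2
    = 8 * C * (128 * γ) ^ 2 * Real.exp (5 / 2 * (6 / 5 * (6 / 5 * (6 / 5 * x)))) := by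
    calc _ = 8 * C * (128 * γ) ^ 2 * Real.exp (5 / 2 * (6 / 5 * (6 / 5 * (6 / 5 * x)))) *
        (Real.exp (-(5 / 2) * (6 / 5 * x)) ^ 2 * Real.exp (6 * x)) := by ring
      _ = _ := by rw [h2, mul_one]
  rw [h5] at h4
  have h6 : (1 / (128 * γ) * Real.exp (-(5 / 2) * (6 / 5 * x))) ^ 2 / 2 *
      Real.exp (5 / 128 * Real.exp (3 / 5 * x))
    = 1 / (2 * (128 * γ) ^ 2) * (Real.exp (5 / 128 * Real.exp (3 / 5 * x)) *
      Real.exp (-(5 / 2) * (6 / 5 * x)) ^ 2) := by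
    field_simp
  rw [h6, one_div_mul_eq_div, le_div_iff₀ (by positivity)]
  linarith

theorem ev_c3c {γ C s : ℝ} (hγ : 0 < γ) (hs : 0 < s) :
    ∀ᶠ lam in (atTop : Filter ℝ), ∀ n : ℕ,
    2 * etaa C lam (n + 2) * Real.exp (2 * (QQ lam (n + 1)
      + 1 / 128 * (gg γ lam (n + 2) / gg γ lam (n + 1))))
      ≤ ss s lam (n + 2) / (2 * gg γ lam (n + 2)) := by
  filter_upwards [ev_dexp (8 * C * γ / s) (5 / 2 * (6 / 5 * (6 / 5 * (6 / 5))))
    (5 / 256) (3 / 5) (by norm_num) (by norm_num), ev_L_ge 22] with lam h h0 n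
  rw [etaa_eq hγ]
  have h1 := h n
  have hL := h0 n
  have e1 : ss s lam (n + 2) / (2 * gg γ lam (n + 2)) = s / (2 * γ) * EE lam (n + 2) := by
    unfold ss gg
    have := Real.exp_pos (5 / 2 * LL lam (n + 2))
    field_simp
  rw [e1, EE_add_two]
  set x := LL lam n
  have h2 : Real.exp (1 / 2 * x) / 16 ≤ 5 / 256 * Real.exp (3 / 5 * x) := by
    have h3 : Real.exp (3 / 5 * x) = Real.exp (1 / 2 * x) * Real.exp (1 / 10 * x) := by
      rw [← Real.exp_add]; congr 1; ring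
    have h4 := Real.add_one_le_exp (1 / 10 * x)
    rw [h3]
    have h5 := Real.exp_pos (1 / 2 * x)
    nlinarith
  have h6 : Real.exp (5 / 256 * Real.exp (3 / 5 * x)) * Real.exp (-(5 / 128 * Real.exp (3 / 5 * x)))
      ≤ Real.exp (-(Real.exp (1 / 2 * x) / 16)) := by
    rw [← Real.exp_add]
    apply Real.exp_le_exp.mpr
    linarith
  have h7 : 4 * C * Real.exp (5 / 2 * (6 / 5 * (6 / 5 * (6 / 5 * x))))
      ≤ s / (2 * γ) * Real.exp (5 / 256 * Real.exp (3 / 5 * x)) := by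
    rw [div_mul_eq_mul_div s, le_div_iff₀ (by positivity)]
    rw [div_mul_eq_mul_div, div_le_iff₀ hs] at h1
    have h8 : 5 / 2 * (6 / 5 * (6 / 5 * (6 / 5))) * x
      = 5 / 2 * (6 / 5 * (6 / 5 * (6 / 5 * x))) := by ring
    rw [h8] at h1
    linarith
  calc 4 * C * Real.exp (5 / 2 * (6 / 5 * (6 / 5 * (6 / 5 * x)))) *
        Real.exp (-(5 / 128 * Real.exp (3 / 5 * x)))
      ≤ s / (2 * γ) * Real.exp (5 / 256 * Real.exp (3 / 5 * x)) *
        Real.exp (-(5 / 128 * Real.exp (3 / 5 * x))) :=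
        mul_le_mul_of_nonneg_right h7 (Real.exp_pos _).le
    _ = s / (2 * γ) * (Real.exp (5 / 256 * Real.exp (3 / 5 * x)) *
        Real.exp (-(5 / 128 * Real.exp (3 / 5 * x)))) := by ring
    _ ≤ _ := mul_le_mul_of_nonneg_left h6 (by positivity)

/-- halving of the seeds -/
theorem ev_half : ∀ᶠ lam in (atTop : Filter ℝ), ∀ n : ℕ,
    Real.exp (5 / 2 * LL lam (n + 1)) * EE lam (n + 1)
      ≤ (Real.exp (5 / 2 * LL lam n) * EE lam n) / 2 := by
  filter_upwards [ev_beats (25 / 72) 16 (by norm_num), ev_L_ge 22] with lam h h0 n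
  have h1 := h n
  have hL := h0 n
  unfold EE
  rw [LL_succ]
  set x := LL lam n
  have e1 : Real.exp (25 / 72 * (6 / 5 * x)) = Real.exp (25 / 72 * x) * Real.exp (5 / 72 * x) := by
    rw [← Real.exp_add]; congr 1; ring
  have e2 := Real.add_one_le_exp (5 / 72 * x)
  have e3 : 2 * Real.exp (25 / 72 * x) ≤ Real.exp (25 / 72 * (6 / 5 * x)) := by
    rw [e1]
    have := Real.exp_pos (25 / 72 * x)
    nlinarith
  rw [le_div_iff₀ (by norm_num), ← Real.exp_add, ← Real.exp_add]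
  have e4 : (2 : ℝ) ≤ Real.exp 1 := by
    have := Real.add_one_le_exp (1 : ℝ)
    linarith
  calc Real.exp (5 / 2 * (6 / 5 * x) + -(Real.exp (25 / 72 * (6 / 5 * x)) / 16)) * 2
      ≤ Real.exp (5 / 2 * (6 / 5 * x) + -(Real.exp (25 / 72 * (6 / 5 * x)) / 16)) * Real.exp 1 :=
        mul_le_mul_of_nonneg_left e4 (Real.exp_pos _).le
    _ = Real.exp (5 / 2 * (6 / 5 * x) + -(Real.exp (25 / 72 * (6 / 5 * x)) / 16) + 1) := by
        rw [Real.exp_add (_ + _)]
    _ ≤ _ := Real.exp_le_exp.mpr (by linarith)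

theorem half_sum {b : ℕ → ℝ} (hb : ∀ n, 0 ≤ b n) (h : ∀ n, b (n + 1) ≤ b n / 2) (n K : ℕ) :
    ∑ l ∈ Ico (n + 1) (K + 1), b l ≤ 2 * b (n + 1) := by
  have key : ∀ j, ∑ l ∈ Ico (n + 1) (n + 1 + j), b l + 2 * b (n + 1 + j) ≤ 2 * b (n + 1) := by
    intro j
    induction j with
    | zero => simp
    | succ j ih =>
      rw [← add_assoc, sum_Ico_succ_top (by omega)]
      linarith [h (n + 1 + j)]
  rcases le_or_gt (n + 1) (K + 1) with h1 | h1
  · obtain ⟨j, hj⟩ := Nat.exists_eq_add_of_le h1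
    rw [hj]
    linarith [key j, hb (n + 1 + j)]
  · rw [Finset.Ico_eq_empty (by omega), sum_empty]
    linarith [hb (n + 1)]

noncomputable def Ceta (γ R s k : ℝ) : ℝ := 2 * R * s + 8 * k * R * γ + k

theorem ev_eta {γ R s k : ℝ} (hγ : 0 < γ) (hR : 1 ≤ R) (hs : 0 < s) (hk : 0 ≤ k) :
    ∀ᶠ lam in (atTop : Filter ℝ), ∀ n K : ℕ,
    ∑ l ∈ Ico (n + 1) (K + 1), (2 * R * ss s lam l + 4 * kk k lam l * w (gg γ lam) R l)
      ≤ etaa (Ceta γ R s k) lam n := by
  filter_upwards [ev_half, ev_w hγ hR, ev_L_ge 0] with lam h hw h0 n K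
  have h1 := half_sum (b := fun n => Real.exp (5 / 2 * LL lam n) * EE lam n)
    (fun n => by have := EE_pos lam n; positivity) h n K
  have h2 : ∀ l, 2 * R * ss s lam l + 4 * kk k lam l * w (gg γ lam) R l
      ≤ Ceta γ R s k * (Real.exp (5 / 2 * LL lam l) * EE lam l) := by
    intro l
    unfold ss kk Ceta
    have e1 := hw l
    have e2 : Real.exp (25 / 12 * LL lam l) ≤ Real.exp (5 / 2 * LL lam l) :=
      Real.exp_le_exp.mpr (by linarith [h0 l])
    have e3 := EE_pos lam l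
    have e4 : w (gg γ lam) R l ≤ 2 * R * γ * Real.exp (5 / 2 * LL lam l) :=
      e1.trans (mul_le_mul_of_nonneg_left e2 (by positivity))
    have e5 : 4 * (k * EE lam l) * w (gg γ lam) R l
      ≤ 4 * (k * EE lam l) * (2 * R * γ * Real.exp (5 / 2 * LL lam l)) :=
      mul_le_mul_of_nonneg_left e4 (by positivity)
    have e6 : 0 ≤ k * (Real.exp (5 / 2 * LL lam l) * EE lam l) := by positivity
    nlinarith
  refine (sum_le_sum fun l _ => h2 l).trans ?_
  rw [← mul_sum]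
  unfold etaa
  have h3 : 0 ≤ Ceta γ R s k := by unfold Ceta; positivity
  have h4 := mul_le_mul_of_nonneg_left h1 h3
  linarith

theorem ev_eta' {γ R s k : ℝ} (hγ : 0 < γ) (hR : 1 ≤ R) (hs : 0 < s) (hk : 0 ≤ k) :
    ∀ᶠ lam in (atTop : Filter ℝ), ∀ n K : ℕ,
    ∑ l ∈ Ico (n + 1) (K + 1), kk k lam l ≤ etaa (Ceta γ R s k) lam n := by
  filter_upwards [ev_half, ev_w hγ hR, ev_L_ge 0] with lam h hw h0 n K
  have h1 := half_sum (b := fun n => Real.exp (5 / 2 * LL lam n) * EE lam n)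
    (fun n => by have := EE_pos lam n; positivity) h n K
  have h2 : ∀ l, kk k lam l ≤ Ceta γ R s k * (Real.exp (5 / 2 * LL lam l) * EE lam l) := by
    intro l
    unfold kk Ceta
    have e3 := EE_pos lam l
    have e2 : 1 ≤ Real.exp (5 / 2 * LL lam l) := Real.one_le_exp (by linarith [h0 l])
    have e6 : k * EE lam l ≤ k * EE lam l * Real.exp (5 / 2 * LL lam l) :=
      le_mul_of_one_le_right (by positivity) e2
    have e7 : 0 ≤ (2 * R * s + 8 * k * R * γ) * (Real.exp (5 / 2 * LL lam l) * EE lam l) := by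
      positivity
    nlinarith
  refine (sum_le_sum fun l _ => h2 l).trans ?_
  rw [← mul_sum]
  unfold etaa
  have h3 : 0 ≤ Ceta γ R s k := by unfold Ceta; positivity
  have h4 := mul_le_mul_of_nonneg_left h1 h3
  linarith

theorem ev_Q {γ R K : ℝ} (hγ : 0 < γ) (hR : 1 ≤ R) (hK : 0 < K) :
    ∀ᶠ lam in (atTop : Filter ℝ), ∀ n : ℕ,
    QQ lam n + gg γ lam (n + 1) / gg γ lam n * (12 * R * Lam K lam n / rr n + 1 / 128)
      ≤ QQ lam (n + 1) := by
  filter_upwards [ev_dom (512 * (12 * R * K)) 1 1 (by norm_num) (by norm_num) 0 (1 / 10)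
    (by norm_num), ev_L_ge 50] with lam h h0 n
  rw [gg_ratio hγ]
  unfold QQ Lam rr
  rw [LL_succ]
  have h1 := h n
  have hL := h0 n
  set x := LL lam n
  have hp : (0 : ℝ) < 64 ^ n := by positivity
  have e1 : Real.exp (1 / 2 * (6 / 5 * x)) = Real.exp (1 / 2 * x) * Real.exp (1 / 10 * x) := by
    rw [← Real.exp_add]; congr 1; ring
  have e2 := Real.add_one_le_exp (1 / 10 * x)
  rw [e1]
  rw [zero_mul, Real.exp_zero, mul_one, pow_one, pow_one] at h1
  have e3 : 12 * R * (K * (1 + x)) / (1 / 64 ^ n) = 12 * R * K * 64 ^ n * (1 + x) := by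
    field_simp
  rw [e3]
  have e4 : 1 / 256 + (12 * R * K * 64 ^ n * (1 + x) + 1 / 128) ≤ Real.exp (1 / 10 * x) / 256 := by
    linarith
  have e5 := mul_le_mul_of_nonneg_left e4 (Real.exp_pos (1 / 2 * x)).le
  linarith

theorem ev_c6 {γ R s K : ℝ} (hγ : 0 < γ) (hR : 1 ≤ R) (hs : 0 < s) (hK : 0 < K) :
    ∀ᶠ lam in (atTop : Filter ℝ), ∀ n : ℕ,
    ss s lam (n + 2) * Real.exp (QQ lam n + 8 * R * Lam K lam n / rr n
      + gg γ lam (n + 1) / gg γ lam n * (1 / 128 + 1 / 32)) < δ (gg γ lam) (n + 1) := by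
  filter_upwards [ev_dom (256 * (8 * R * K)) 1 1 (by norm_num) (by norm_num) 0 (1 / 2)
    (by norm_num), ev_dexp (2 * (s * (128 * γ))) (5 / 2 * (6 / 5 * (6 / 5)) + 3) (1 / 64) (1 / 2)
    (by norm_num) (by norm_num)] with lam h h' n
  rw [gg_ratio hγ, delta_eq hγ]
  unfold ss QQ Lam rr
  rw [EE_add_two, show LL lam (n + 2) = 6 / 5 * (6 / 5 * LL lam n) by
    rw [show n + 2 = n + 1 + 1 by ring, LL_succ, LL_succ], LL_succ]
  have h1 := h n
  have h2 := h' n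
  set x := LL lam n
  have hp : (0 : ℝ) < 64 ^ n := by positivity
  rw [zero_mul, Real.exp_zero, mul_one, pow_one, pow_one] at h1
  have e3 : 8 * R * (K * (1 + x)) / (1 / 64 ^ n) = 8 * R * K * 64 ^ n * (1 + x) := by
    field_simp
  rw [e3]
  set v := Real.exp (1 / 2 * x)
  have e4 : Real.exp (-(v / 16)) * Real.exp (v / 256 + 8 * R * K * 64 ^ n * (1 + x)
      + v * (1 / 128 + 1 / 32)) ≤ Real.exp (-(1 / 64 * v)) := by
    rw [← Real.exp_add]
    apply Real.exp_le_exp.mpr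
    linarith
  have e5 : s * Real.exp (5 / 2 * (6 / 5 * (6 / 5 * x))) * Real.exp (-(v / 16)) *
      Real.exp (v / 256 + 8 * R * K * 64 ^ n * (1 + x) + v * (1 / 128 + 1 / 32))
      ≤ s * Real.exp (5 / 2 * (6 / 5 * (6 / 5 * x))) * Real.exp (-(1 / 64 * v)) := by
    rw [mul_assoc (s * Real.exp (5 / 2 * (6 / 5 * (6 / 5 * x))))]
    exact mul_le_mul_of_nonneg_left e4 (by positivity)
  refine e5.trans_lt ?_
  rw [Real.exp_neg, ← div_eq_mul_inv, div_lt_iff₀ (Real.exp_pos _)]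
  have e6 : (5 / 2 * (6 / 5 * (6 / 5)) + 3) * x = 5 / 2 * (6 / 5 * (6 / 5 * x)) + 3 * x := by ring
  rw [e6, Real.exp_add] at h2
  have e7 : Real.exp (-(5 / 2) * (6 / 5 * x)) * Real.exp (3 * x) = 1 := by
    rw [← Real.exp_add, ← Real.exp_zero]
    congr 1; ring
  have h3 := mul_le_mul_of_nonneg_right h2 (Real.exp_pos (-(5 / 2) * (6 / 5 * x))).le
  have e8 : 2 * (s * (128 * γ)) * (Real.exp (5 / 2 * (6 / 5 * (6 / 5 * x))) * Real.exp (3 * x)) *
      Real.exp (-(5 / 2) * (6 / 5 * x))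
      = 2 * (s * (128 * γ)) * Real.exp (5 / 2 * (6 / 5 * (6 / 5 * x))) := by
    calc _ = 2 * (s * (128 * γ)) * Real.exp (5 / 2 * (6 / 5 * (6 / 5 * x))) *
        (Real.exp (-(5 / 2) * (6 / 5 * x)) * Real.exp (3 * x)) := by ring
      _ = _ := by rw [e7, mul_one]
  rw [e8] at h3
  rw [mul_assoc (1 / (128 * γ)), one_div_mul_eq_div, lt_div_iff₀ (by positivity)]
  have e9 : 0 < s * Real.exp (5 / 2 * (6 / 5 * (6 / 5 * x))) * (128 * γ) := by positivity
  linarith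

theorem ev_c7 {γ R s K m : ℝ} (hγ : 0 < γ) (hR : 1 ≤ R) (hs : 0 < s) (hm : 0 ≤ m) :
    ∀ᶠ lam in (atTop : Filter ℝ), ∀ n : ℕ,
    δ (gg γ lam) (n + 1) < ss s lam (n + 2) / 2 * (1 / (8 * (gg γ lam n * R)))
      * Real.exp (gg γ lam (n + 1) / gg γ lam n / 8
        - muu m lam (n + 2) * D (gg γ lam) (Lam K lam) rr n) := by
  filter_upwards [ev_dom (64 * (m * (4 * K / γ))) 1 1 (by norm_num) (by norm_num)
    (2 * (6 / 5 * (6 / 5)) - 5 / 2) (1 / 2) (by norm_num),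
    ev_dexp (2 * (1 / (128 * γ) / (s / 2 * (1 / (8 * (γ * R)))))) 0 (1 / 32) (1 / 2)
    (by norm_num) (by norm_num), ev_L_ge 0] with lam h h' h0 n
  rw [gg_ratio hγ, delta_eq hγ, D_eq hγ]
  unfold ss gg muu
  rw [EE_add_two, show LL lam (n + 2) = 6 / 5 * (6 / 5 * LL lam n) by
    rw [show n + 2 = n + 1 + 1 by ring, LL_succ, LL_succ], LL_succ]
  have h1 := h n
  have h2 := h' n
  have hL := h0 n
  set x := LL lam n
  have hp : (0 : ℝ) < 64 ^ n := by positivity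
  set v := Real.exp (1 / 2 * x) with hv
  have e1 : m * Real.exp (2 * (6 / 5 * (6 / 5 * x))) *
      (4 * K / γ * 64 ^ n * (1 + x) * Real.exp (-(5 / 2) * x)) ≤ v / 64 := by
    rw [le_div_iff₀ (by norm_num)]
    have e2 : Real.exp ((2 * (6 / 5 * (6 / 5)) - 5 / 2) * x)
        = Real.exp (2 * (6 / 5 * (6 / 5 * x))) * Real.exp (-(5 / 2) * x) := by
      rw [← Real.exp_add]; congr 1; ring
    rw [e2, pow_one, pow_one] at h1
    linarith
  have e3 : Real.exp (v / 32) ≤ Real.exp (-(v / 16)) * Real.exp (v / 8 -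
      m * Real.exp (2 * (6 / 5 * (6 / 5 * x))) *
      (4 * K / γ * 64 ^ n * (1 + x) * Real.exp (-(5 / 2) * x))) := by
    rw [← Real.exp_add]
    apply Real.exp_le_exp.mpr
    have : 0 ≤ v := (Real.exp_pos _).le
    linarith
  have e4 : s * Real.exp (5 / 2 * (6 / 5 * (6 / 5 * x))) * Real.exp (-(v / 16)) / 2 *
      (1 / (8 * (γ * Real.exp (5 / 2 * x) * R))) * Real.exp (v / 8 -
      m * Real.exp (2 * (6 / 5 * (6 / 5 * x))) *
      (4 * K / γ * 64 ^ n * (1 + x) * Real.exp (-(5 / 2) * x)))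
      = (s / 2 * (1 / (8 * (γ * R)))) * (Real.exp (5 / 2 * (6 / 5 * (6 / 5 * x))) /
        Real.exp (5 / 2 * x)) * (Real.exp (-(v / 16)) * Real.exp (v / 8 -
      m * Real.exp (2 * (6 / 5 * (6 / 5 * x))) *
      (4 * K / γ * 64 ^ n * (1 + x) * Real.exp (-(5 / 2) * x)))) := by
    have := Real.exp_pos (5 / 2 * x)
    field_simp
  rw [e4]
  have e5 : 1 ≤ Real.exp (5 / 2 * (6 / 5 * (6 / 5 * x))) / Real.exp (5 / 2 * x) := by
    rw [← Real.exp_sub]
    exact Real.one_le_exp (by linarith)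
  have e6 : 1 / (128 * γ) * Real.exp (-(5 / 2) * (6 / 5 * x)) ≤ 1 / (128 * γ) := by
    refine mul_le_of_le_one_right (by positivity) ?_
    exact Real.exp_le_one_iff.mpr (by linarith)
  have hc : 0 < s / 2 * (1 / (8 * (γ * R))) := by positivity
  refine e6.trans_lt ?_
  rw [zero_mul, Real.exp_zero, mul_one] at h2
  have e7 : 1 / (128 * γ) < (s / 2 * (1 / (8 * (γ * R)))) * Real.exp (v / 32) := by
    have e8 : 1 / (128 * γ) / (s / 2 * (1 / (8 * (γ * R)))) < Real.exp (1 / 32 * v) := by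
      have : 0 < 1 / (128 * γ) / (s / 2 * (1 / (8 * (γ * R)))) := by positivity
      linarith
    rw [div_lt_iff₀ hc] at e8
    rw [show v / 32 = 1 / 32 * v by ring]
    linarith
  refine e7.trans_le ?_
  calc s / 2 * (1 / (8 * (γ * R))) * Real.exp (v / 32)
      ≤ s / 2 * (1 / (8 * (γ * R))) * (Real.exp (-(v / 16)) * Real.exp (v / 8 -
      m * Real.exp (2 * (6 / 5 * (6 / 5 * x))) *
      (4 * K / γ * 64 ^ n * (1 + x) * Real.exp (-(5 / 2) * x)))) :=
        mul_le_mul_of_nonneg_left e3 hc.le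
    _ ≤ _ := by
        refine mul_le_mul_of_nonneg_right ?_ (by positivity)
        exact le_mul_of_one_le_right hc.le e5

theorem ev_c8 {γ : ℝ} (hγ : 0 < γ) :
    ∀ᶠ lam in (atTop : Filter ℝ), ∀ C : ℝ, ∃ n : ℕ, C < gg γ lam n * rr n := by
  filter_upwards [ev_dom 1 1 0 (by norm_num) (by norm_num) 1 (5 / 2)
    (by norm_num), eventually_ge_atTop 1] with lam h h0 C
  have h1 : Tendsto (LL lam) atTop atTop := LL_tendsto h0
  obtain ⟨n, hn⟩ := (h1.eventually_gt_atTop (C / γ)).exists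
  refine ⟨n, ?_⟩
  have h2 := h n
  have hp : (0 : ℝ) < 64 ^ n := by positivity
  unfold gg rr
  set x := LL lam n
  rw [one_mul, pow_one, pow_zero, mul_one, one_mul] at h2
  have h3 := Real.add_one_le_exp x
  rw [div_lt_iff₀ hγ] at hn
  rw [mul_one_div, lt_div_iff₀ hp]
  calc C * 64 ^ n < (x * γ) * 64 ^ n := mul_lt_mul_of_pos_right hn hp
    _ ≤ Real.exp x * γ * 64 ^ n := by
        refine mul_le_mul_of_nonneg_right ?_ hp.le
        exact mul_le_mul_of_nonneg_right (by linarith) hγ.le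
    _ = γ * (64 ^ n * Real.exp x) := by ring
    _ ≤ _ := mul_le_mul_of_nonneg_left h2 hγ.le

theorem ev_c9 {γ K T : ℝ} (hγ : 0 < γ) (hK : 0 < K) (hT : 0 < T) :
    ∀ᶠ lam in (atTop : Filter ℝ), ∀ n : ℕ,
    ∑ k ∈ range n, D (gg γ lam) (Lam K lam) rr k ≤ T := by
  filter_upwards [ev_dom (8 * K / (γ * T)) 2 1 (by norm_num) (by norm_num) (-(5 / 2)) 0
    (by norm_num), ev_L_ge 0] with lam h h0 n
  have key : ∀ k, D (gg γ lam) (Lam K lam) rr k ≤ T / 2 * (1 / 2) ^ k := by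
    intro k
    rw [D_eq hγ]
    have h1 := h k
    have hL := h0 k
    set x := LL lam k
    rw [zero_mul, Real.exp_zero, pow_one, div_mul_eq_mul_div, div_mul_eq_mul_div,
      div_mul_eq_mul_div, div_le_one (by positivity)] at h1
    have h2 : (2 : ℝ) ^ k ≤ 64 ^ k := pow_le_pow_left₀ (by norm_num) (by norm_num) k
    have h3 : (64 : ℝ) ^ k * 2 ^ k ≤ (64 ^ k) ^ 2 := by nlinarith [pow_pos (show (0:ℝ) < 64 by norm_num) k]
    rw [one_div, inv_pow, ← div_eq_mul_inv, le_div_iff₀ (by positivity)]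
    have h4 : 8 * K * (64 ^ k * 2 ^ k) * (1 + x) * Real.exp (-(5 / 2) * x)
        ≤ 8 * K * (64 ^ k) ^ 2 * (1 + x) * Real.exp (-(5 / 2) * x) := by
      refine mul_le_mul_of_nonneg_right (mul_le_mul_of_nonneg_right
        (mul_le_mul_of_nonneg_left h3 (by positivity)) (by positivity)) (by positivity)
    have h5 := h4.trans h1
    rw [div_mul_eq_mul_div, div_mul_eq_mul_div, div_mul_eq_mul_div, div_mul_eq_mul_div,
      div_le_iff₀ hγ]
    linarith
  calc ∑ k ∈ range n, D (gg γ lam) (Lam K lam) rr k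
      ≤ ∑ k ∈ range n, T / 2 * (1 / 2 : ℝ) ^ k := sum_le_sum fun k _ => key k
    _ = T / 2 * ∑ k ∈ range n, (1 / 2 : ℝ) ^ k := by rw [mul_sum]
    _ ≤ T / 2 * 2 := by
        refine mul_le_mul_of_nonneg_left ?_ (by positivity)
        have := (summable_geometric_two).sum_le_tsum (range n) (fun i _ => by positivity)
        rwa [tsum_geometric_two] at this
    _ = T := by ring

theorem ev_par {γ m s₁ s₂ k R T : ℝ} (hγ : 0 < γ) (hm : 0 ≤ m) (hs₁ : 0 < s₁) (hs₂ : 0 < s₂)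
    (hk : 0 ≤ k) (hR : 1 ≤ R) (hT : 0 < T) : ∀ᶠ lam in (atTop : Filter ℝ),
    Par (gg γ lam) (muu m lam) (ss s₁ lam) (ss s₂ lam) (kk k lam) (etaa (Ceta γ R s₂ k) lam)
      (QQ lam) (Lam (KK R γ) lam) rr R T := by
  have hK := KK_pos R γ
  filter_upwards [ev_L_ge 1, ev_c1 hγ hm hR hK, ev_c2a hγ hs₂ hK, ev_c2a' hγ hs₂ hK,
    ev_c2b hγ hk hK, ev_c4 (K := KK R γ) hγ, ev_c4' hγ, ev_c5 hγ hR, ev_c3a hγ hk,
    ev_c3b (C := Ceta γ R s₂ k) hγ, ev_c3c (C := Ceta γ R s₂ k) hγ hs₁, ev_eta hγ hR hs₂ hk,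
    ev_eta' hγ hR hs₂ hk, ev_Q hγ hR hK, ev_c6 hγ hR hs₂ hK,
    ev_c7 (K := KK R γ) hγ hR hs₁ hm, ev_c8 hγ, ev_c9 hγ hK hT, ev_sumg hγ] with
    lam a0 a1 a2 a3 a4 a5 a6 a7 a8 a9 a10 a11 a12 a13 a14 a15 a16 a17 a18
  constructor
  · intro n
    unfold muu
    rw [LL_succ]
    exact mul_le_mul_of_nonneg_left (Real.exp_le_exp.mpr (by linarith [a0 n])) hm
  · intro n; have := EE_pos lam n; unfold ss; positivity
  · intro n; have := EE_pos lam n; unfold kk; positivity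
  · intro n
    unfold Lam KK
    have := a0 n
    have h2 := abs_nonneg (Real.log (256 * R * γ))
    nlinarith
  · exact rr_pos
  · intro n
    unfold rr
    rw [div_le_one (by positivity)]
    exact one_le_pow₀ (by norm_num)
  · intro n
    unfold rr
    rw [pow_succ]
    field_simp
  · intro n; unfold QQ; positivity
  · exact a13
  · exact a18
  · intro n
    unfold gg
    rw [LL_succ]
    exact mul_le_mul_of_nonneg_left (Real.exp_le_exp.mpr (by linarith [a0 n])) hγ.le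
  · exact a1
  · exact a2
  · exact a3
  · exact a4
  · exact a5
  · exact a6
  · exact a7
  · exact a8
  · exact a9
  · exact a10
  · exact a11
  · exact a12
  · exact a14
  · exact a15
  · exact a16
  · exact a17

end Pool.Agent.H402R3
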