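import Mathlib
import Pool.Agent.H402R3.Scale

/-! The system of fields. -/

open Set MeasureTheory Filter Topology Finset
open scoped RealInnerProductSpace ContDiff

namespace Pool.Agent.H402R3

structure Prof (φ ρ ψ : V → V) (x₁ : V) : Prop where
  φs : ContDiff ℝ ∞ φ
  ρs : ContDiff ℝ ∞ ρ
  ψs : ContDiff ℝ ∞ ψ
  φd : ∀ x, divg φ x = 0
  ρd : ∀ x, divg ρ x = 0
  ψd : ∀ x, divg ψ x = 0
  φ0 : ∀ x, 3 / 4 < ‖x‖ → φ x = 0
  ρ0 : ∀ x, 1 / 32 < ‖x - x₁‖ → ρ x = 0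
  ψ0 : ∀ x, ‖x‖ < 5 / 4 → ψ x = 0
  ψ0' : ∀ x, 3 < ‖x‖ → ψ x = 0
  φlin : ∀ x, ‖x‖ < 1 / 16 → φ x = HH x
  φaff : ∀ x, ‖x - x₁‖ < 1 / 16 → φ x = - HH (x - x₁)
  x₁n : ‖x₁‖ = 1 / 2
  q_pos : hf φ φ < 0
  β_pos : hf ρ ρ < 0
  ψ_pos : 0 < ip ψ ψ

structure Scl (M ε : ℕ → ℝ) : Prop where
  M_pos : ∀ n, 0 < M n
  M0 : 2 ≤ M 0 ^ 2
  M_succ : ∀ n, 64 * M n ^ 2 ≤ M (n + 1) ^ 2
  ε_pos : ∀ n, 0 < ε n
  summ : ∀ j : ℕ, Summable (fun n => Real.sqrt (ε n) * M n ^ j)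

noncomputable def rad (M : ℕ → ℝ) (n : ℕ) : ℝ := 1 / M n ^ 2

noncomputable def Pn (ψ ρ : V → V) (M ε : ℕ → ℝ) (n : ℕ) : V → V :=
  ψ + ∑ l ∈ range n, Real.sqrt (ε l) • sc (M l) ρ

noncomputable def PP (ψ ρ : V → V) (M ε : ℕ → ℝ) : V → V :=
  fun x => ψ x + ∑' l, Real.sqrt (ε l) • sc (M l) ρ x

theorem tsupport_sub {Y : V → V} {s : Set V} (hs : IsClosed s) (h : ∀ x, x ∉ s → Y x = 0) :
    tsupport Y ⊆ s := by
  refine closure_minimal (fun x hx => ?_) hs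
  by_contra hxs
  exact hx (h x hxs)

theorem fderiv_zero_of {Y : V → V} {r : ℝ} (h : ∀ x, r < ‖x‖ → Y x = 0) (x : V) (hx : r < ‖x‖) :
    fderiv ℝ Y x = 0 := by
  apply fderiv_of_notMem_tsupport
  intro hc
  have h2 := tsupport_sub (s := Metric.closedBall (0 : V) r) Metric.isClosed_closedBall
    (fun x hx => h x (by simpa using hx)) hc
  simp at h2
  linarith

section

variable {φ ρ ψ : V → V} {x₁ : V} {M ε : ℕ → ℝ}

theorem Prof.φcs (P : Prof φ ρ ψ x₁) : HasCompactSupport φ :=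
  HasCompactSupport.intro (isCompact_closedBall (0 : V) (3 / 4)) fun x hx =>
    P.φ0 x (by simpa using hx)

theorem Prof.ψcs (P : Prof φ ρ ψ x₁) : HasCompactSupport ψ :=
  HasCompactSupport.intro (isCompact_closedBall (0 : V) 3) fun x hx =>
    P.ψ0' x (by simpa using hx)

theorem Prof.ρcs (P : Prof φ ρ ψ x₁) : HasCompactSupport ρ :=
  HasCompactSupport.intro (isCompact_closedBall x₁ (1 / 32)) fun x hx =>
    P.ρ0 x (by simpa [dist_eq_norm] using hx)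

theorem Prof.φT (P : Prof φ ρ ψ x₁) : TF φ := ⟨P.φs.of_le (by exact_mod_cast le_top), P.φcs, P.φd⟩
theorem Prof.ρT (P : Prof φ ρ ψ x₁) : TF ρ := ⟨P.ρs.of_le (by exact_mod_cast le_top), P.ρcs, P.ρd⟩
theorem Prof.ψT (P : Prof φ ρ ψ x₁) : TF ψ := ⟨P.ψs.of_le (by exact_mod_cast le_top), P.ψcs, P.ψd⟩

theorem Scl.rad_pos (S : Scl M ε) (n : ℕ) : 0 < rad M n := by
  have := S.M_pos n; unfold rad; positivity

theorem Scl.rad_mul (S : Scl M ε) (n : ℕ) : M n ^ 2 * rad M n = 1 := by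
  have := S.M_pos n; unfold rad; field_simp

theorem Scl.rad_succ (S : Scl M ε) (n : ℕ) : 64 * rad M (n + 1) ≤ rad M n := by
  have h1 := S.M_pos n
  have h2 := S.M_pos (n + 1)
  unfold rad
  rw [mul_one_div, div_le_div_iff₀ (by positivity) (by positivity)]
  linarith [S.M_succ n]

theorem Scl.rad_anti (S : Scl M ε) : Antitone (rad M) := by
  refine antitone_nat_of_succ_le fun n => ?_
  linarith [S.rad_succ n, S.rad_pos (n + 1)]

theorem Scl.rad_lt (S : Scl M ε) {m n : ℕ} (h : m < n) : 64 * rad M n ≤ rad M m := by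
  have h1 := S.rad_anti (Nat.succ_le_of_lt h)
  have h2 := S.rad_succ m
  have h3 : rad M (m.succ) = rad M (m + 1) := rfl
  linarith

theorem Scl.rad_half (S : Scl M ε) (n : ℕ) : rad M n ≤ 1 / 2 := by
  refine (S.rad_anti (Nat.zero_le n)).trans ?_
  unfold rad
  exact one_div_le_one_div_of_le (by norm_num) S.M0

theorem Scl.rad_pow (S : Scl M ε) (n : ℕ) : rad M n ≤ (1 / 64) ^ n := by
  induction n with
  | zero => simpa using (S.rad_half 0).trans (by norm_num)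
  | succ n ih =>
    rw [pow_succ]
    linarith [S.rad_succ n]

theorem Scl.rad_tendsto (S : Scl M ε) : Tendsto (rad M) atTop (𝓝 0) :=
  squeeze_zero (fun n => (S.rad_pos n).le) S.rad_pow
    (tendsto_pow_atTop_nhds_zero_of_lt_one (by norm_num) (by norm_num))

theorem Scl.norm_sc (S : Scl M ε) (n : ℕ) (x : V) : ‖M n ^ 2 • x‖ = M n ^ 2 * ‖x‖ := by
  rw [norm_smul, Real.norm_eq_abs, abs_of_nonneg (by positivity)]

theorem φ_out (P : Prof φ ρ ψ x₁) (S : Scl M ε) (n : ℕ) (x : V) (h : 3 / 4 * rad M n < ‖x‖) :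
    sc (M n) φ x = 0 := by
  unfold sc
  rw [P.φ0, smul_zero]
  rw [S.norm_sc]
  have h1 := S.rad_mul n
  have h2 : 0 < M n ^ 2 := by have := S.M_pos n; positivity
  nlinarith

theorem φ_lin (P : Prof φ ρ ψ x₁) (S : Scl M ε) (n : ℕ) (x : V) (h : ‖x‖ < rad M n / 16) :
    sc (M n) φ x = Ls (M n ^ 5) x := by
  unfold sc Ls
  rw [P.φlin]
  · rw [map_smul, smul_smul]; congr 1; ring
  · rw [S.norm_sc]
    have h1 := S.rad_mul n
    have h2 : 0 < M n ^ 2 := by have := S.M_pos n; positivity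
    nlinarith

theorem ρ_out (P : Prof φ ρ ψ x₁) (S : Scl M ε) (n : ℕ) (x : V) (h : 3 / 4 * rad M n < ‖x‖) :
    sc (M n) ρ x = 0 := by
  unfold sc
  rw [P.ρ0, smul_zero]
  have h1 := S.rad_mul n
  have h2 : 0 < M n ^ 2 := by have := S.M_pos n; positivity
  have h3 : ‖M n ^ 2 • x‖ - ‖x₁‖ ≤ ‖M n ^ 2 • x - x₁‖ := norm_sub_norm_le _ _
  rw [S.norm_sc, P.x₁n] at h3
  nlinarith

theorem ρ_in (P : Prof φ ρ ψ x₁) (S : Scl M ε) (n : ℕ) (x : V) (h : ‖x‖ < rad M n / 4) :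
    sc (M n) ρ x = 0 := by
  unfold sc
  rw [P.ρ0, smul_zero]
  have h1 := S.rad_mul n
  have h2 : 0 < M n ^ 2 := by have := S.M_pos n; positivity
  have h3 : ‖x₁‖ - ‖M n ^ 2 • x‖ ≤ ‖M n ^ 2 • x - x₁‖ := by
    rw [norm_sub_rev]; exact norm_sub_norm_le _ _
  rw [S.norm_sc, P.x₁n] at h3
  nlinarith

theorem Pn_apply (n : ℕ) (x : V) :
    Pn ψ ρ M ε n x = ψ x + ∑ l ∈ range n, Real.sqrt (ε l) • sc (M l) ρ x := by
  unfold Pn; simp

theorem Pn_succ (n : ℕ) :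
    Pn ψ ρ M ε (n + 1) = Pn ψ ρ M ε n + Real.sqrt (ε n) • sc (M n) ρ := by
  unfold Pn; rw [sum_range_succ, add_assoc]

theorem Pn_in (P : Prof φ ρ ψ x₁) (S : Scl M ε) (n : ℕ) (x : V) (h : ‖x‖ < 2 * rad M n) :
    Pn ψ ρ M ε n x = 0 := by
  rw [Pn_apply, P.ψ0 x (by linarith [S.rad_half n]), zero_add]
  refine sum_eq_zero fun l hl => ?_
  rw [ρ_in P S, smul_zero]
  have := S.rad_lt (mem_range.mp hl)
  have := S.rad_pos n
  linarith

theorem PP_out (P : Prof φ ρ ψ x₁) (S : Scl M ε) (n : ℕ) (x : V) (h : 3 / 4 * rad M n < ‖x‖) :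
    PP ψ ρ M ε x = Pn ψ ρ M ε n x := by
  rw [Pn_apply]
  unfold PP
  congr 1
  refine tsum_eq_sum fun l hl => ?_
  rw [ρ_out P S, smul_zero]
  have : n ≤ l := by simpa using hl
  have := S.rad_anti this
  linarith

theorem Pn_TF (P : Prof φ ρ ψ x₁) (S : Scl M ε) (n : ℕ) : TF (Pn ψ ρ M ε n) :=
  P.ψT.add (TF.sum fun l _ => (sc_TF (S.M_pos l) P.ρT).smul _)

theorem PP_smooth (P : Prof φ ρ ψ x₁) (S : Scl M ε) : ContDiff ℝ ∞ (PP ψ ρ M ε) := by
  unfold PP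
  refine P.ψs.add ?_
  have hb : ∀ k : ℕ, ∃ C, 0 ≤ C ∧ ∀ x, ‖iteratedFDeriv ℝ k ρ x‖ ≤ C := by
    intro k
    have hc : HasCompactSupport (iteratedFDeriv ℝ k ρ) := P.ρcs.iteratedFDeriv k
    obtain ⟨C, hC⟩ := (P.ρs.continuous_iteratedFDeriv (m := k)
      (by exact_mod_cast le_top)).bounded_above_of_compact_support hc
    exact ⟨C, (norm_nonneg _).trans (hC 0), hC⟩
  choose C hC0 hC using hb
  refine contDiff_tsum (N := ⊤) (v := fun k n => (Real.sqrt (ε n) * M n ^ (3 + 2 * k)) * C k)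
    (f := fun n => fun x => Real.sqrt (ε n) • sc (M n) ρ x) ?_ ?_ ?_
  · intro n
    exact (sc_cd P.ρs).const_smul (Real.sqrt (ε n))
  · intro k _
    exact (S.summ _).mul_right _
  · intro k n x _
    have h1 := sc_iter (S.M_pos n).le P.ρs (hC k) x
    have h2 : (fun x => Real.sqrt (ε n) • sc (M n) ρ x) = Real.sqrt (ε n) • sc (M n) ρ := rfl
    have h3 : ContDiff ℝ k (sc (M n) ρ) := (sc_cd P.ρs).of_le (by exact_mod_cast le_top)
    rw [h2, iteratedFDeriv_const_smul_apply h3.contDiffAt, norm_smul, Real.norm_eq_abs,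
      abs_of_nonneg (Real.sqrt_nonneg _), mul_assoc]
    exact mul_le_mul_of_nonneg_left h1 (Real.sqrt_nonneg _)

/-- around a nonzero point `PP` is one of the finite sums -/
theorem PP_near (P : Prof φ ρ ψ x₁) (S : Scl M ε) (n : ℕ) (x : V) (h : 3 / 4 * rad M n < ‖x‖) :
    PP ψ ρ M ε =ᶠ[𝓝 x] Pn ψ ρ M ε n := by
  have : ∀ᶠ y in 𝓝 x, 3 / 4 * rad M n < ‖y‖ := continuous_norm.continuousAt.eventually (lt_mem_nhds h)
  exact this.mono fun y hy => PP_out P S n y hy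

theorem exists_rad (S : Scl M ε) {x : V} (hx : x ≠ 0) : ∃ n, rad M n < ‖x‖ :=
  (S.rad_tendsto.eventually (gt_mem_nhds (norm_pos_iff.mpr hx))).exists

theorem PP_div (P : Prof φ ρ ψ x₁) (S : Scl M ε) (x : V) : divg (PP ψ ρ M ε) x = 0 := by
  have hd : Continuous (fderiv ℝ (PP ψ ρ M ε)) :=
    (PP_smooth P S).continuous_fderiv (by simp)
  have hc : Continuous (fun x => divg (PP ψ ρ M ε) x) := by
    unfold divg
    fun_prop
  have h0 : EqOn (fun x => divg (PP ψ ρ M ε) x) (fun _ => (0 : ℝ)) ({0}ᶜ : Set V) := by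
    intro x hx
    obtain ⟨n, hn⟩ := exists_rad S (by simpa using hx)
    have h1 := PP_near P S n x (by linarith [S.rad_pos n])
    simp only [divg]
    rw [h1.fderiv_eq]
    exact (Pn_TF P S n).dv x
  have h1 := Continuous.ext_on (dense_compl_singleton (0 : V)) hc continuous_const h0
  exact congrFun h1 x

theorem PP_zero (P : Prof φ ρ ψ x₁) (S : Scl M ε) (x : V) (hx : 3 < ‖x‖) : PP ψ ρ M ε x = 0 := by
  rw [PP_out P S 0 x (by linarith [S.rad_half 0]), Pn_apply]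
  simp [P.ψ0' x hx]

theorem PP_TF (P : Prof φ ρ ψ x₁) (S : Scl M ε) : TF (PP ψ ρ M ε) where
  cd := (PP_smooth P S).of_le (by exact_mod_cast le_top)
  cs := HasCompactSupport.intro (isCompact_closedBall (0 : V) 3) fun x hx =>
    PP_zero P S x (by simpa using hx)
  dv := PP_div P S

theorem φT (P : Prof φ ρ ψ x₁) (S : Scl M ε) (n : ℕ) : TF (sc (M n) φ) := sc_TF (S.M_pos n) P.φT
theorem ρT (P : Prof φ ρ ψ x₁) (S : Scl M ε) (n : ℕ) : TF (sc (M n) ρ) := sc_TF (S.M_pos n) P.ρT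

/-- fields with small support see `φ_n` as a linear strain -/
theorem aff_small (P : Prof φ ρ ψ x₁) (S : Scl M ε) {n : ℕ} {Y : V → V}
    (h : ∀ x, rad M (n + 1) < ‖x‖ → Y x = 0) : AffOn (sc (M n) φ) (M n ^ 5) 0 Y := by
  intro x hx
  have h1 := tsupport_sub (s := Metric.closedBall (0 : V) (rad M (n + 1)))
    Metric.isClosed_closedBall (fun x hx => h x (by simpa using hx)) hx
  have h2 : ‖x‖ ≤ rad M (n + 1) := by simpa using h1
  have h3 : ‖x‖ < rad M n / 16 := by linarith [S.rad_succ n, S.rad_pos (n + 1)]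
  refine ⟨by rw [φ_lin P S n x h3]; simp [Ls], ?_⟩
  have h4 : ∀ᶠ y in 𝓝 x, ‖y‖ < rad M n / 16 := continuous_norm.continuousAt.eventually (gt_mem_nhds h3)
  have h5 : sc (M n) φ =ᶠ[𝓝 x] Ls (M n ^ 5) := h4.mono fun y hy => φ_lin P S n y hy
  rw [h5.fderiv_eq, Ls_fderiv]

/-- `ρ_n` sees `φ_n` as an affine strain -/
theorem aff_ρ (P : Prof φ ρ ψ x₁) (S : Scl M ε) (n : ℕ) (c : ℝ) :
    AffOn (sc (M n) φ) (-(M n ^ 5)) (M n ^ 3 • HH x₁) (c • sc (M n) ρ) := by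
  have key : ∀ y : V, ‖M n ^ 2 • y - x₁‖ < 1 / 16 →
      sc (M n) φ y = Ls (-(M n ^ 5)) y + M n ^ 3 • HH x₁ := by
    intro y hy
    unfold sc Ls
    rw [P.φaff _ hy, map_sub, map_smul]
    module
  intro x hx
  have h1 := tsupport_sub (s := {x : V | ‖M n ^ 2 • x - x₁‖ ≤ 1 / 32})
    (isClosed_le (by fun_prop) continuous_const) (fun x hx => by
      simp only [mem_setOf_eq, not_le] at hx
      simp [sc, P.ρ0 _ hx]) hx
  have h2 : ‖M n ^ 2 • x - x₁‖ < 1 / 16 := lt_of_le_of_lt h1 (by norm_num)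
  refine ⟨by rw [key x h2]; simp [Ls], ?_⟩
  have hc : ContinuousAt (fun y : V => ‖M n ^ 2 • y - x₁‖) x := by fun_prop
  have h4 : ∀ᶠ y in 𝓝 x, ‖M n ^ 2 • y - x₁‖ < 1 / 16 := hc.eventually (gt_mem_nhds h2)
  have h5 : sc (M n) φ =ᶠ[𝓝 x] fun y => Ls (-(M n ^ 5)) y + M n ^ 3 • HH x₁ :=
    h4.mono fun y hy => key y hy
  rw [h5.fderiv_eq, fderiv_add_const, Ls_fderiv]

theorem ip_φφ (P : Prof φ ρ ψ x₁) (S : Scl M ε) {m n : ℕ} (h : m < n) :
    ip (sc (M m) φ) (sc (M n) φ) = 0 := by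
  refine aff_ip (aff_small P S (n := m) fun x hx => ?_) (φT P S n)
  refine φ_out P S n x ?_
  have := S.rad_anti (Nat.succ_le_of_lt h)
  have h3 : rad M (m.succ) = rad M (m + 1) := rfl
  have := S.rad_pos n
  linarith

theorem ip_φφ' (P : Prof φ ρ ψ x₁) (S : Scl M ε) (m n : ℕ) :
    ip (sc (M m) φ) (sc (M n) φ) = if m = n then ip φ φ else 0 := by
  rcases lt_trichotomy m n with h | h | h
  · rw [ip_φφ P S h, if_neg (by omega)]
  · rw [h, sc_ip (S.M_pos n), if_pos rfl]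
  · rw [ip_comm, ip_φφ P S h, if_neg (by omega)]

theorem PP_split (n : ℕ) : PP ψ ρ M ε = Pn ψ ρ M ε n + (Real.sqrt (ε n) • sc (M n) ρ
    + (PP ψ ρ M ε - Pn ψ ρ M ε (n + 1))) := by
  rw [Pn_succ]; abel

theorem tail_small (P : Prof φ ρ ψ x₁) (S : Scl M ε) (n : ℕ) (x : V) (hx : rad M n < ‖x‖) :
    (PP ψ ρ M ε - Pn ψ ρ M ε n) x = 0 := by
  have h := PP_out P S n x (by linarith [S.rad_pos n])
  simp [h]

theorem ip_φP (P : Prof φ ρ ψ x₁) (S : Scl M ε) (n : ℕ) :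
    ip (PP ψ ρ M ε) (sc (M n) φ) = 0 := by
  have hφ := φT P S n
  have hP := Pn_TF P S n
  have hρ := (ρT P S n).smul (Real.sqrt (ε n))
  have ht := (PP_TF P S).sub (Pn_TF P S (n + 1))
  rw [PP_split n, ip_add_left hP.cont (hρ.add ht).cont hφ, ip_add_left hρ.cont ht.cont hφ,
    ip_comm (_ • _), aff_ip (aff_ρ P S n _) hρ, ip_comm (_ - _),
    aff_ip (aff_small P S (tail_small P S (n + 1))) ht]
  rw [ip_disj]
  · ring
  · intro x
    rcases lt_or_ge ‖x‖ (rad M n) with h | h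
    · left; exact Pn_in P S n x (by linarith [S.rad_pos n])
    · right; exact φ_out P S n x (by linarith [S.rad_pos n])

theorem dir_φP (P : Prof φ ρ ψ x₁) (S : Scl M ε) (n : ℕ) :
    dir (sc (M n) φ) (PP ψ ρ M ε) = 0 := by
  have hφ := φT P S n
  have hP := Pn_TF P S n
  have hρ := (ρT P S n).smul (Real.sqrt (ε n))
  have ht := (PP_TF P S).sub (Pn_TF P S (n + 1))
  rw [PP_split n, dir_add_right hφ.contd hP (hρ.add ht), dir_add_right hφ.contd hρ ht,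
    aff_dir (aff_ρ P S n _) hρ, aff_dir (aff_small P S (tail_small P S (n + 1))) ht]
  have : dir (sc (M n) φ) (Pn ψ ρ M ε n) = 0 := by
    unfold dir
    have h0 : ∀ x, ∑ i, ⟪fderiv ℝ (sc (M n) φ) x (ev i), fderiv ℝ (Pn ψ ρ M ε n) x (ev i)⟫ = 0 := by
      intro x
      rcases lt_or_ge ‖x‖ (2 * rad M n) with h | h
      · have h4 : ∀ᶠ y in 𝓝 x, ‖y‖ < 2 * rad M n :=
          continuous_norm.continuousAt.eventually (gt_mem_nhds h)
        have h5 : Pn ψ ρ M ε n =ᶠ[𝓝 x] fun _ => 0 := h4.mono fun y hy => Pn_in P S n y hy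
        rw [h5.fderiv_eq]
        simp
      · rw [fderiv_zero_of (φ_out P S n) x (by linarith [S.rad_pos n])]
        simp
    simp [h0]
  rw [this]; ring

end

end Pool.Agent.H402R3
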