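import Mathlib
import Pool.Agent.H402R3.Rep

/-! Identities for a fixed element of the closed span. -/

open Set MeasureTheory Filter Topology Finset
open scoped RealInnerProductSpace ContDiff

namespace Pool.Agent.H402R3

section

variable {φ ρ ψ : V → V} {x₁ : V} {M ε : ℕ → ℝ}

noncomputable def Wf (φ : V → V) (M : ℕ → ℝ) (v : V → V) (n : ℕ) : ℝ :=
  ∑ m ∈ range n, M m ^ 5 * af φ M v m

noncomputable def sm (φ : V → V) (M : ℕ → ℝ) (v : V → V) (n : ℕ) : V → V :=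
  ∑ m ∈ range n, af φ M v m • sc (M m) φ

noncomputable def un (φ ψ ρ : V → V) (M ε : ℕ → ℝ) (v : V → V) (n : ℕ) : V → V :=
  cf ψ ρ M ε v • PP ψ ρ M ε + sm φ M v n

noncomputable def Zn (φ ψ ρ : V → V) (M ε : ℕ → ℝ) (v : V → V) (n : ℕ) : V → V :=
  v - (cf ψ ρ M ε v • Pn ψ ρ M ε n + sm φ M v n)

theorem sm_TF (P : Prof φ ρ ψ x₁) (S : Scl M ε) (v : V → V) (n : ℕ) : TF (sm φ M v n) :=
  TF.sum fun m _ => (φT P S m).smul _

theorem un_TF (P : Prof φ ρ ψ x₁) (S : Scl M ε) (v : V → V) (n : ℕ) :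
    TF (un φ ψ ρ M ε v n) := ((PP_TF P S).smul _).add (sm_TF P S v n)

theorem Zn_TF (P : Prof φ ρ ψ x₁) (S : Scl M ε) {v : V → V} (hv : TF v) (n : ℕ) :
    TF (Zn φ ψ ρ M ε v n) := hv.sub (((Pn_TF P S n).smul _).add (sm_TF P S v n))

theorem un_out (P : Prof φ ρ ψ x₁) (S : Scl M ε) {v : V → V} (hv : InX (Fam φ ψ ρ M ε) v)
    (n : ℕ) (x : V) (hx : 3 / 4 * rad M n < ‖x‖) : un φ ψ ρ M ε v n x = v x := by
  rw [rep P S hv n x hx]
  simp [un, sm]

theorem Zn_out (P : Prof φ ρ ψ x₁) (S : Scl M ε) {v : V → V} (hv : InX (Fam φ ψ ρ M ε) v)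
    (n : ℕ) (x : V) (hx : 3 / 4 * rad M n < ‖x‖) : Zn φ ψ ρ M ε v n x = 0 := by
  have h := un_out P S hv n x hx
  unfold un at h
  unfold Zn
  simp only [Pi.sub_apply, Pi.add_apply, Pi.smul_apply] at h ⊢
  rw [← h, PP_out P S n x hx, sub_self]

theorem sm_in (P : Prof φ ρ ψ x₁) (S : Scl M ε) (v : V → V) (n : ℕ) (x : V)
    (hx : ‖x‖ < 2 * rad M n) : sm φ M v n x = Ls (Wf φ M v n) x := by
  unfold sm Wf Ls
  rw [Finset.sum_apply, sum_smul]
  refine sum_congr rfl fun m hm => ?_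
  have h1 := S.rad_lt (mem_range.mp hm)
  have h2 := S.rad_pos n
  rw [Pi.smul_apply, φ_lin P S m x (by linarith)]
  unfold Ls
  rw [smul_smul, mul_comm]

theorem Zn_in (P : Prof φ ρ ψ x₁) (S : Scl M ε) (v : V → V) (n : ℕ) (x : V)
    (hx : ‖x‖ < 2 * rad M n) : v x = Ls (Wf φ M v n) x + Zn φ ψ ρ M ε v n x := by
  unfold Zn
  simp only [Pi.sub_apply, Pi.add_apply, Pi.smul_apply]
  rw [Pn_in P S n x hx, sm_in P S v n x hx]
  simp

theorem Zn_succ (v : V → V) (n : ℕ) : Zn φ ψ ρ M ε v n = af φ M v n • sc (M n) φ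
    + (cf ψ ρ M ε v * Real.sqrt (ε n)) • sc (M n) ρ + Zn φ ψ ρ M ε v (n + 1) := by
  unfold Zn sm
  rw [sum_range_succ, Pn_succ]
  module

theorem Zn_disj (P : Prof φ ρ ψ x₁) (S : Scl M ε) {v : V → V} (hv : InX (Fam φ ψ ρ M ε) v)
    (n : ℕ) (c : ℝ) (x : V) : (c • sc (M n) ρ) x = 0 ∨ Zn φ ψ ρ M ε v (n + 1) x = 0 := by
  rcases lt_or_ge ‖x‖ (rad M n / 4) with h | h
  · left; simp [ρ_in P S n x h]
  · right
    refine Zn_out P S hv (n + 1) x ?_
    linarith [S.rad_succ n, S.rad_pos (n + 1)]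

theorem Zn_small (P : Prof φ ρ ψ x₁) (S : Scl M ε) {v : V → V} (hv : InX (Fam φ ψ ρ M ε) v)
    (n : ℕ) (x : V) (hx : rad M n < ‖x‖) : Zn φ ψ ρ M ε v n x = 0 :=
  Zn_out P S hv n x (by linarith [S.rad_pos n])

theorem dphi_supp (P : Prof φ ρ ψ x₁) (S : Scl M ε) (n : ℕ) (x : V)
    (hx : fderiv ℝ (sc (M n) φ) x ≠ 0) : ‖x‖ < 2 * rad M n := by
  by_contra h
  exact hx (fderiv_zero_of (φ_out P S n) x (by linarith [S.rad_pos n]))

/-- the tail functional -/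
noncomputable def tt (φ ψ ρ : V → V) (M ε : ℕ → ℝ) (v : V → V) (n : ℕ) : ℝ :=
  - hf (Zn φ ψ ρ M ε v n) (Zn φ ψ ρ M ε v n)

theorem hf_ρ (S : Scl M ε) (n : ℕ) (c : ℝ) :
    hf ((c * Real.sqrt (ε n)) • sc (M n) ρ) ((c * Real.sqrt (ε n)) • sc (M n) ρ)
      = c ^ 2 * ε n * hf ρ ρ := by
  rw [hf_smul_left, hf_smul_right, sc_hf (S.M_pos n)]
  have := Real.mul_self_sqrt (S.ε_pos n).le
  calc c * Real.sqrt (ε n) * (c * Real.sqrt (ε n) * hf ρ ρ)
      = c ^ 2 * (Real.sqrt (ε n) * Real.sqrt (ε n)) * hf ρ ρ := by ring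
    _ = _ := by rw [this]

theorem flux_eq (P : Prof φ ρ ψ x₁) (S : Scl M ε) {v : V → V} (hv : InX (Fam φ ψ ρ M ε) v)
    (n : ℕ) : tri v (sc (M n) φ) v = Wf φ M v n * af φ M v n * (-hf φ φ)
      + M n ^ 5 * (cf ψ ρ M ε v ^ 2 * ε n * (-hf ρ ρ)) - M n ^ 5 * tt φ ψ ρ M ε v (n + 1) := by
  have hZ := Zn_TF P S hv.1 (n + 1)
  have h := tri_main (v := v) (a := af φ M v n) (W := Wf φ M v n) (φT P S n)
    ((ρT P S n).smul (cf ψ ρ M ε v * Real.sqrt (ε n))) hZ (aff_ρ P S n _)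
    (aff_small P S (Zn_small P S hv (n + 1))) (Zn_disj P S hv n _) (fun x hx => by
      rw [Zn_in P S v n x (dphi_supp P S n x hx), Zn_succ]
      simp only [Pi.add_apply, Pi.smul_apply]
      abel)
  rw [h, hf_ρ S, sc_hf (S.M_pos n)]
  unfold tt
  ring

theorem dir_eq (P : Prof φ ρ ψ x₁) (S : Scl M ε) {v : V → V} (hv : InX (Fam φ ψ ρ M ε) v)
    (n : ℕ) : dir v (sc (M n) φ) = af φ M v n * (M n ^ 4 * dir φ φ) := by
  have hZ := Zn_TF P S hv.1 (n + 1)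
  have hρ := (ρT P S n).smul (cf ψ ρ M ε v * Real.sqrt (ε n))
  have hφ := (φT P S n).smul (af φ M v n)
  have h := dir_main (v := v) (a := af φ M v n) (W := Wf φ M v n) (φT P S n) hρ hZ (aff_ρ P S n _)
    (aff_small P S (Zn_small P S hv (n + 1))) (fun x hx => by
      have h1 := dphi_supp P S n x hx
      have h2 : ∀ᶠ y in 𝓝 x, ‖y‖ < 2 * rad M n :=
        continuous_norm.continuousAt.eventually (gt_mem_nhds h1)
      have h3 : v =ᶠ[𝓝 x] (Ls (Wf φ M v n) + af φ M v n • sc (M n) φ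
        + (cf ψ ρ M ε v * Real.sqrt (ε n)) • sc (M n) ρ + Zn φ ψ ρ M ε v (n + 1)) := by
        refine h2.mono fun y hy => ?_
        rw [Zn_in P S v n y hy, Zn_succ]
        simp only [Pi.add_apply, Pi.smul_apply]
        abel
      have d0 := (Ls_cd (Wf φ M v n)).differentiable (by norm_num)
      rw [h3.fderiv_eq, fderiv_add (((d0.add hφ.diff).add hρ.diff) x) (hZ.diff x),
        fderiv_add ((d0.add hφ.diff) x) (hρ.diff x), fderiv_add (d0 x) (hφ.diff x), Ls_fderiv,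
        fderiv_const_smul ((φT P S n).diff x)])
  rw [h, sc_dir (S.M_pos n) P.φT.diff P.φT.diff]

theorem tt_rec (P : Prof φ ρ ψ x₁) (S : Scl M ε) {v : V → V} (hv : InX (Fam φ ψ ρ M ε) v)
    (n : ℕ) : tt φ ψ ρ M ε v n = (-hf φ φ) * af φ M v n ^ 2
      + cf ψ ρ M ε v ^ 2 * ε n * (-hf ρ ρ) + tt φ ψ ρ M ε v (n + 1) := by
  have hφ := φT P S n
  have hZ := Zn_TF P S hv.1 (n + 1)
  have hρ := (ρT P S n).smul (cf ψ ρ M ε v * Real.sqrt (ε n))
  have hφs := hφ.smul (af φ M v n)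
  have a1 := aff_hf (aff_ρ P S n (cf ψ ρ M ε v * Real.sqrt (ε n))) hρ
  have a2 := aff_hf (aff_small P S (Zn_small P S hv (n + 1))) hZ
  have a3 := hf_disj (Zn_disj P S hv n (cf ψ ρ M ε v * Real.sqrt (ε n)))
  have a4 := hf_ρ (ρ := ρ) S n (cf ψ ρ M ε v)
  have a5 := sc_hf (S.M_pos n) φ φ
  unfold tt
  rw [Zn_succ v n]
  set Y₁ := (cf ψ ρ M ε v * Real.sqrt (ε n)) • sc (M n) ρ
  set Y₂ := Zn φ ψ ρ M ε v (n + 1)
  have hs := (hφs.add hρ).add hZ
  have b1 : hf (af φ M v n • sc (M n) φ) (af φ M v n • sc (M n) φ + Y₁ + Y₂)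
      = af φ M v n ^ 2 * hf φ φ := by
    rw [hf_comm, hf_add_left (hφs.add hρ).cont hZ.cont hφs, hf_add_left hφs.cont hρ.cont hφs,
      hf_smul_right, hf_smul_right, hf_smul_right, hf_smul_left, hf_comm Y₁, hf_comm Y₂, a1, a2, a5]
    ring
  have b2 : hf Y₁ (af φ M v n • sc (M n) φ + Y₁ + Y₂) = cf ψ ρ M ε v ^ 2 * ε n * hf ρ ρ := by
    rw [hf_comm, hf_add_left (hφs.add hρ).cont hZ.cont hρ, hf_add_left hφs.cont hρ.cont hρ,
      hf_smul_left, a1, hf_comm Y₂, a3, a4]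
    ring
  have b3 : hf Y₂ (af φ M v n • sc (M n) φ + Y₁ + Y₂) = hf Y₂ Y₂ := by
    rw [hf_comm, hf_add_left (hφs.add hρ).cont hZ.cont hZ, hf_add_left hφs.cont hρ.cont hZ,
      hf_smul_left, a2, a3]
    ring
  rw [hf_add_left (hφs.add hρ).cont hZ.cont hs, hf_add_left hφs.cont hρ.cont hs, b1, b2, b3]
  ring

theorem norm_ev (i : Fin 3) : ‖ev i‖ = 1 := by simp [ev]

theorem HH_ev0 : HH (ev 0) = - ev 0 := by
  rw [HH_apply]; simp [ev]

theorem norm_HH_ge : 1 ≤ ‖HH‖ := by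
  have h := HH.le_opNorm (ev 0)
  rw [HH_ev0, norm_neg, norm_ev, mul_one] at h
  exact h

theorem W_le (P : Prof φ ρ ψ x₁) (S : Scl M ε) {v : V → V} (hv : InX (Fam φ ψ ρ M ε) v)
    {C : ℝ} (hC : ∀ x, ‖fderiv ℝ v x‖ ≤ C) (n : ℕ) : |Wf φ M v n| ≤ C := by
  set x : V := rad M n • ev 0 with hx
  have hr := S.rad_pos n
  have hxn : ‖x‖ = rad M n := by rw [hx, norm_smul, norm_ev, Real.norm_eq_abs, abs_of_pos hr, mul_one]
  have h2 : ∀ᶠ y in 𝓝 x, ‖y‖ < 2 * rad M n :=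
    continuous_norm.continuousAt.eventually (gt_mem_nhds (by show ‖x‖ < _; rw [hxn]; linarith))
  have h3 : ∀ᶠ y in 𝓝 x, 3 / 4 * rad M n < ‖y‖ :=
    continuous_norm.continuousAt.eventually (lt_mem_nhds (by show _ < ‖x‖; rw [hxn]; linarith))
  have h4 : v =ᶠ[𝓝 x] Ls (Wf φ M v n) := by
    filter_upwards [h2, h3] with y hy hy'
    rw [Zn_in P S v n y hy, Zn_out P S hv n y hy', add_zero]
  have h5 := hC x
  rw [h4.fderiv_eq, Ls_fderiv, norm_smul, Real.norm_eq_abs] at h5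
  nlinarith [norm_HH_ge, abs_nonneg (Wf φ M v n)]

theorem tt_le (P : Prof φ ρ ψ x₁) (S : Scl M ε) {v : V → V} (hv : InX (Fam φ ψ ρ M ε) v)
    {C : ℝ} (hC : ∀ x, ‖v x‖ ≤ C ∧ ‖fderiv ℝ v x‖ ≤ C) (n : ℕ) :
    |tt φ ψ ρ M ε v n| ≤ ‖HH‖ * (C + C * ‖HH‖) ^ 2 * vr (rad M n) := by
  have hC0 : 0 ≤ C := (norm_nonneg _).trans (hC 0).1
  unfold tt hf
  rw [abs_neg]
  refine int_le_vr (fun x hx => ?_) (fun x hx => by rw [Zn_small P S hv n x hx]; simp)
  have hr := S.rad_pos n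
  have h1 : Zn φ ψ ρ M ε v n x = v x - Ls (Wf φ M v n) x := by
    rw [Zn_in (ψ := ψ) (ρ := ρ) (ε := ε) P S v n x (by linarith)]; abel
  have h2 : ‖Zn φ ψ ρ M ε v n x‖ ≤ C + C * ‖HH‖ := by
    rw [h1]
    refine (norm_sub_le _ _).trans (add_le_add (hC x).1 ?_)
    unfold Ls
    rw [norm_smul, Real.norm_eq_abs]
    refine mul_le_mul (W_le P S hv (fun x => (hC x).2) n) ?_ (norm_nonneg _) hC0
    refine (HH.le_opNorm x).trans ?_
    refine mul_le_of_le_one_right (norm_nonneg _) ?_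
    linarith [S.rad_half n]
  calc |⟪Zn φ ψ ρ M ε v n x, HH (Zn φ ψ ρ M ε v n x)⟫|
      ≤ ‖Zn φ ψ ρ M ε v n x‖ * ‖HH (Zn φ ψ ρ M ε v n x)‖ := abs_real_inner_le_norm _ _
    _ ≤ ‖Zn φ ψ ρ M ε v n x‖ * (‖HH‖ * ‖Zn φ ψ ρ M ε v n x‖) :=
        mul_le_mul_of_nonneg_left (HH.le_opNorm _) (norm_nonneg _)
    _ = ‖HH‖ * ‖Zn φ ψ ρ M ε v n x‖ ^ 2 := by ring
    _ ≤ ‖HH‖ * (C + C * ‖HH‖) ^ 2 := by
        refine mul_le_mul_of_nonneg_left ?_ (norm_nonneg _)
        exact pow_le_pow_left₀ (norm_nonneg _) h2 2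

/-- the gradient of `v - u_n` is bounded, uniformly in `n` -/
theorem grad_diff (P : Prof φ ρ ψ x₁) (S : Scl M ε) {v : V → V} (hv : InX (Fam φ ψ ρ M ε) v)
    {C B : ℝ} (hC : ∀ x, ‖fderiv ℝ v x‖ ≤ C) (hB : ∀ x, ‖fderiv ℝ (PP ψ ρ M ε) x‖ ≤ B)
    (n : ℕ) (x : V) :
    ‖fderiv ℝ (v - un φ ψ ρ M ε v n) x‖ ≤ C + |cf ψ ρ M ε v| * B + C * ‖HH‖ := by
  have hC0 : 0 ≤ C := (norm_nonneg _).trans (hC 0)
  have hB0 : 0 ≤ B := (norm_nonneg _).trans (hB 0)
  have hr := S.rad_pos n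
  rcases lt_or_ge ‖x‖ (2 * rad M n) with h | h
  · have h2 : ∀ᶠ y in 𝓝 x, ‖y‖ < 2 * rad M n :=
      continuous_norm.continuousAt.eventually (gt_mem_nhds h)
    have h3 : v - un φ ψ ρ M ε v n =ᶠ[𝓝 x] v - (cf ψ ρ M ε v • PP ψ ρ M ε + Ls (Wf φ M v n)) := by
      refine h2.mono fun y hy => ?_
      unfold un
      simp only [Pi.sub_apply, Pi.add_apply, Pi.smul_apply]
      rw [sm_in P S v n y hy]
    have d0 := (Ls_cd (Wf φ M v n)).differentiable (by norm_num)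
    have hP := (PP_TF P S)
    have hPs := hP.smul (cf ψ ρ M ε v)
    rw [h3.fderiv_eq, fderiv_sub (hv.1.diff x) ((hPs.diff.add d0) x),
      fderiv_add (hPs.diff x) (d0 x), fderiv_const_smul (hP.diff x), Ls_fderiv]
    refine (norm_sub_le _ _).trans ?_
    rw [add_assoc]
    refine add_le_add (hC x) ((norm_add_le _ _).trans (add_le_add ?_ ?_))
    · rw [norm_smul, Real.norm_eq_abs]
      exact mul_le_mul_of_nonneg_left (hB x) (abs_nonneg _)
    · rw [norm_smul, Real.norm_eq_abs]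
      exact mul_le_mul_of_nonneg_right (W_le P S hv hC n) (norm_nonneg _)
  · have h1 : ∀ y, 3 / 4 * rad M n < ‖y‖ → (v - un φ ψ ρ M ε v n) y = 0 := fun y hy => by
      simp [un_out P S hv n y hy]
    rw [fderiv_zero_of h1 x (by linarith), norm_zero]
    positivity

theorem diff_small (P : Prof φ ρ ψ x₁) (S : Scl M ε) {v : V → V} (hv : InX (Fam φ ψ ρ M ε) v)
    (n : ℕ) (x : V) (hx : 3 / 4 * rad M n < ‖x‖) : (v - un φ ψ ρ M ε v n) x = 0 := by
  simp [un_out P S hv n x hx]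

theorem dir_diff_le {v D : V → V} {C K r : ℝ} (hC : ∀ x, ‖fderiv ℝ v x‖ ≤ C)
    (hK : ∀ x, ‖fderiv ℝ D x‖ ≤ K) (hD : ∀ x, r < ‖x‖ → fderiv ℝ D x = 0) :
    |dir v D| ≤ 3 * (C * K) * vr r := by
  have hC0 : 0 ≤ C := (norm_nonneg _).trans (hC 0)
  have hK0 : 0 ≤ K := (norm_nonneg _).trans (hK 0)
  unfold dir
  refine int_le_vr (fun x _ => ?_) (fun x hx => by rw [hD x hx]; simp)
  refine (abs_sum_le_sum_abs _ _).trans ?_
  have h1 : ∀ i ∈ (univ : Finset (Fin 3)), |⟪fderiv ℝ v x (ev i), fderiv ℝ D x (ev i)⟫| ≤ C * K := by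
    intro i _
    refine (abs_real_inner_le_norm _ _).trans ?_
    refine mul_le_mul ?_ ?_ (norm_nonneg _) hC0
    · have := (fderiv ℝ v x).le_opNorm (ev i)
      rw [norm_ev, mul_one] at this
      exact this.trans (hC x)
    · have := (fderiv ℝ D x).le_opNorm (ev i)
      rw [norm_ev, mul_one] at this
      exact this.trans (hK x)
  refine (sum_le_sum h1).trans ?_
  simp

theorem tri_diff_le {v D : V → V} {C K r : ℝ} (hC : ∀ x, ‖v x‖ ≤ C)
    (hK : ∀ x, ‖fderiv ℝ D x‖ ≤ K) (hD : ∀ x, r < ‖x‖ → fderiv ℝ D x = 0) :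
    |tri v D v| ≤ C ^ 2 * K * vr r := by
  have hC0 : 0 ≤ C := (norm_nonneg _).trans (hC 0)
  have hK0 : 0 ≤ K := (norm_nonneg _).trans (hK 0)
  unfold tri
  refine int_le_vr (fun x _ => ?_) (fun x hx => by rw [hD x hx]; simp)
  refine (abs_real_inner_le_norm _ _).trans ?_
  have h1 := (fderiv ℝ D x).le_opNorm (v x)
  calc ‖v x‖ * ‖fderiv ℝ D x (v x)‖ ≤ C * (K * C) := by
        refine mul_le_mul (hC x) (h1.trans ?_) (norm_nonneg _) hC0
        exact mul_le_mul (hK x) (hC x) (norm_nonneg _) hK0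
    _ = _ := by ring

theorem vr_rad_tendsto (S : Scl M ε) : Tendsto (fun n => vr (rad M n)) atTop (𝓝 0) := by
  have h : ∀ n, vr (rad M n) ≤ rad M n * vr 1 := by
    intro n
    rw [vr_eq (S.rad_pos n).le]
    refine mul_le_mul_of_nonneg_right ?_ (vr_nonneg 1)
    have h1 := S.rad_pos n
    have h2 := S.rad_half n
    have h3 : rad M n ^ 2 ≤ 1 := pow_le_one₀ h1.le (by linarith)
    nlinarith
  refine squeeze_zero (fun n => vr_nonneg _) h ?_
  simpa using S.rad_tendsto.mul_const (vr 1)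

theorem le_of_vr (S : Scl M ε) {a b K : ℝ} (h : ∀ n, a ≤ b + K * vr (rad M n)) : a ≤ b := by
  have h1 : Tendsto (fun n => b + K * vr (rad M n)) atTop (𝓝 (b + K * 0)) :=
    tendsto_const_nhds.add ((vr_rad_tendsto S).const_mul K)
  have h2 := ge_of_tendsto' h1 h
  linarith

/-- Dirichlet pairing with the pump -/
theorem dir_pump (P : Prof φ ρ ψ x₁) (S : Scl M ε) {v : V → V} (hv : InX (Fam φ ψ ρ M ε) v)
    {C B : ℝ} (hC : ∀ x, ‖fderiv ℝ v x‖ ≤ C) (hB : ∀ x, ‖fderiv ℝ (PP ψ ρ M ε) x‖ ≤ B) :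
    dir v (PP ψ ρ M ε) = cf ψ ρ M ε v * dir (PP ψ ρ M ε) (PP ψ ρ M ε) := by
  have hP := PP_TF P S
  have hr := fun n => S.rad_pos n
  have e1 : ∀ n, dir (un φ ψ ρ M ε v n) (PP ψ ρ M ε)
      = cf ψ ρ M ε v * dir (PP ψ ρ M ε) (PP ψ ρ M ε) := by
    intro n
    have e2 : ∀ n, dir (PP ψ ρ M ε) (sm φ M v n) = 0 := by
      intro n
      induction n with
      | zero => simp [dir, sm]
      | succ n ih =>
        have h1 : sm φ M v (n + 1) = sm φ M v n + af φ M v n • sc (M n) φ := by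
          unfold sm; rw [sum_range_succ]
        rw [h1, dir_add_right hP.contd (sm_TF P S v n) ((φT P S n).smul _),
          dir_smul_right _ (φT P S n), dir_comm (PP ψ ρ M ε) (sc (M n) φ), dir_φP P S n, ih]
        ring
    rw [dir_comm]
    unfold un
    rw [dir_add_right hP.contd (hP.smul _) (sm_TF P S v n), dir_smul_right _ hP, e2]
    ring
  have e3 : ∀ n, |dir v (PP ψ ρ M ε) - cf ψ ρ M ε v * dir (PP ψ ρ M ε) (PP ψ ρ M ε)|
      ≤ 0 + (3 * (B * (C + |cf ψ ρ M ε v| * B + C * ‖HH‖))) * vr (rad M n) := by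
    intro n
    have e4 : dir v (PP ψ ρ M ε) - cf ψ ρ M ε v * dir (PP ψ ρ M ε) (PP ψ ρ M ε)
        = dir (PP ψ ρ M ε) (v - un φ ψ ρ M ε v n) := by
      have e5 : v = un φ ψ ρ M ε v n + (v - un φ ψ ρ M ε v n) := by abel
      have e6 : dir (PP ψ ρ M ε) v = dir (PP ψ ρ M ε) (un φ ψ ρ M ε v n)
          + dir (PP ψ ρ M ε) (v - un φ ψ ρ M ε v n) := by
        conv_lhs => rw [e5]
        exact dir_add_right hP.contd (un_TF P S v n) (hv.1.sub (un_TF P S v n))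
      rw [dir_comm v, e6, dir_comm _ (un φ ψ ρ M ε v n), e1 n]
      ring
    rw [e4, zero_add]
    refine dir_diff_le hB (grad_diff P S hv hC hB n) (fun x hx => ?_)
    exact fderiv_zero_of (diff_small P S hv n) x (by linarith [hr n])
  have e7 := le_of_vr S e3
  exact sub_eq_zero.mp (abs_eq_zero.mp (le_antisymm e7 (abs_nonneg _)))

theorem tri_zero_mid (u v : V → V) : tri u 0 v = 0 := by
  unfold tri; simp

theorem dir_zero_right (u : V → V) : dir u 0 = 0 := by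
  unfold dir; simp

/-- the energy inequality for truncations, in tested form -/
theorem energy_static (P : Prof φ ρ ψ x₁) (S : Scl M ε) {v : V → V}
    (hv : InX (Fam φ ψ ρ M ε) v) {C B K ν : ℝ} (hν : 0 ≤ ν)
    (hC : ∀ x, ‖v x‖ ≤ C ∧ ‖fderiv ℝ v x‖ ≤ C) (hB : ∀ x, ‖fderiv ℝ (PP ψ ρ M ε) x‖ ≤ B)
    (hK : C + |cf ψ ρ M ε v| * B + C * ‖HH‖ ≤ K) (n : ℕ) :
    cf ψ ρ M ε v * (tri v (PP ψ ρ M ε) v - ν * dir v (PP ψ ρ M ε))
      + ∑ m ∈ range n, af φ M v m * (tri v (sc (M m) φ) v - ν * dir v (sc (M m) φ))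
      ≤ (C ^ 2 * K + ν * (3 * (C * K))) * vr (rad M n) := by
  have hP := PP_TF P S
  have hr := S.rad_pos n
  have e1 : ∀ n, ∑ m ∈ range n, af φ M v m * (tri v (sc (M m) φ) v - ν * dir v (sc (M m) φ))
      = tri v (sm φ M v n) v - ν * dir v (sm φ M v n) := by
    intro n
    induction n with
    | zero => unfold sm; simp [tri_zero_mid, dir_zero_right]
    | succ n ih =>
      have h1 : sm φ M v (n + 1) = sm φ M v n + af φ M v n • sc (M n) φ := by
        unfold sm; rw [sum_range_succ]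
      rw [sum_range_succ, ih, h1, tri_add_mid hv.1.cont (sm_TF P S v n) ((φT P S n).smul _)
        hv.1.cont, tri_smul_mid _ (φT P S n), dir_add_right hv.1.contd (sm_TF P S v n)
        ((φT P S n).smul _), dir_smul_right _ (φT P S n)]
      ring
  have e2 : cf ψ ρ M ε v * (tri v (PP ψ ρ M ε) v - ν * dir v (PP ψ ρ M ε))
      + ∑ m ∈ range n, af φ M v m * (tri v (sc (M m) φ) v - ν * dir v (sc (M m) φ))
      = tri v (un φ ψ ρ M ε v n) v - ν * dir v (un φ ψ ρ M ε v n) := by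
    rw [e1 n]
    unfold un
    rw [tri_add_mid hv.1.cont (hP.smul _) (sm_TF P S v n) hv.1.cont, tri_smul_mid _ hP,
      dir_add_right hv.1.contd (hP.smul _) (sm_TF P S v n), dir_smul_right _ hP]
    ring
  rw [e2]
  set U := un φ ψ ρ M ε v n with hU
  have hUT : TF U := un_TF P S v n
  have hDT : TF (v - U) := hv.1.sub hUT
  have e3 : v = U + (v - U) := by abel
  have e4 : tri v v v = 0 := tri_self hv.1 hv.1.cd hv.1.dv
  have e5 : tri v v v = tri v U v + tri v (v - U) v := by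
    have : tri v (U + (v - U)) v = tri v U v + tri v (v - U) v :=
      tri_add_mid hv.1.cont hUT hDT hv.1.cont
    rwa [← e3] at this
  have e6 : dir v v = dir v U + dir v (v - U) := by
    have : dir v (U + (v - U)) = dir v U + dir v (v - U) :=
      dir_add_right hv.1.contd hUT hDT
    rwa [← e3] at this
  have e7 : 0 ≤ dir v v := by
    unfold dir
    exact integral_nonneg fun x => sum_nonneg fun i _ => real_inner_self_nonneg
  have hg : ∀ x, ‖fderiv ℝ (v - U) x‖ ≤ K := fun x =>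
    (grad_diff P S hv (fun x => (hC x).2) hB n x).trans hK
  have hz : ∀ x, rad M n < ‖x‖ → fderiv ℝ (v - U) x = 0 := fun x hx =>
    fderiv_zero_of (diff_small P S hv n) x (by linarith)
  have e8 := abs_le.mp (tri_diff_le (fun x => (hC x).1) hg hz)
  have e9 := abs_le.mp (dir_diff_le (fun x => (hC x).2) hg hz)
  have e10 : ν * dir v (v - U) ≤ ν * (3 * (C * K) * vr (rad M n)) :=
    mul_le_mul_of_nonneg_left e9.2 hν
  nlinarith [mul_nonneg hν e7]

theorem ip_un (P : Prof φ ρ ψ x₁) (S : Scl M ε) (v : V → V) (n : ℕ) :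
    ip (un φ ψ ρ M ε v n) (un φ ψ ρ M ε v n)
      = cf ψ ρ M ε v ^ 2 * ip (PP ψ ρ M ε) (PP ψ ρ M ε)
        + ip φ φ * ∑ m ∈ range n, af φ M v m ^ 2 := by
  have hP := PP_TF P S
  have e0 : ∀ n, ip (PP ψ ρ M ε) (sm φ M v n) = 0 := by
    intro n
    unfold sm
    rw [cip_sum hP.cont (fun m _ => (φT P S m).CC.smul _)]
    refine sum_eq_zero fun m _ => ?_
    rw [ip_smul_right, ip_φP P S m, mul_zero]
  have e1 : ∀ m n, m < n → ∀ c : ℝ, ip (c • sc (M m) φ) (sc (M n) φ) = 0 := by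
    intro m n h c
    rw [ip_smul_left, ip_φφ P S h, mul_zero]
  have e2 : ∀ n, ip (sm φ M v n) (sc (M n) φ) = 0 := by
    intro n
    unfold sm
    rw [ip_sum_left (fun m _ => ((φT P S m).smul _).cont) (φT P S n)]
    exact sum_eq_zero fun m hm => e1 m n (mem_range.mp hm) _
  have e3 : ∀ n, ip (sm φ M v n) (sm φ M v n) = ip φ φ * ∑ m ∈ range n, af φ M v m ^ 2 := by
    intro n
    induction n with
    | zero => simp [sm, ip]
    | succ n ih =>
      have h1 : sm φ M v (n + 1) = sm φ M v n + af φ M v n • sc (M n) φ := by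
        unfold sm; rw [sum_range_succ]
      have hs := sm_TF P S v n
      have hφ := φT P S n
      rw [h1, cip_add (hs.cont.add (hφ.smul _).cont) hs.CC (hφ.smul _).CC, ip_comm _ (sm φ M v n),
        ip_comm _ (af φ M v n • sc (M n) φ), cip_add hs.cont hs.CC (hφ.smul _).CC,
        cip_add (hφ.smul _).cont hs.CC (hφ.smul _).CC, ih, ip_smul_right, e2 n,
        ip_comm _ (sm φ M v n), ip_smul_right, e2 n, ip_smul_left, ip_smul_right,
        sc_ip (S.M_pos n), sum_range_succ]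
      ring
  unfold un
  have hs := sm_TF P S v n
  have hPs := hP.smul (cf ψ ρ M ε v)
  rw [cip_add (hPs.cont.add hs.cont) hPs.CC hs.CC, ip_comm _ (cf ψ ρ M ε v • PP ψ ρ M ε),
    ip_comm _ (sm φ M v n), cip_add hPs.cont hPs.CC hs.CC, cip_add hs.cont hPs.CC hs.CC, e3 n,
    ip_smul_left, ip_smul_right, ip_smul_left, e0 n, ip_smul_right, ip_comm (sm φ M v n), e0 n]
  ring

theorem ip_le_un (P : Prof φ ρ ψ x₁) (S : Scl M ε) {v : V → V}
    (hv : InX (Fam φ ψ ρ M ε) v) {C : ℝ} (hC : ∀ x, ‖v x‖ ≤ C) (n : ℕ) :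
    ip v v ≤ ip (un φ ψ ρ M ε v n) (un φ ψ ρ M ε v n) + C ^ 2 * vr (rad M n) := by
  have hU := un_TF (ψ := ψ) (ρ := ρ) (ε := ε) P S v n
  have hC0 : 0 ≤ C := (norm_nonneg _).trans (hC 0)
  have h1 : ip v v - ip (un φ ψ ρ M ε v n) (un φ ψ ρ M ε v n)
      = ∫ x, (⟪v x, v x⟫ - ⟪un φ ψ ρ M ε v n x, un φ ψ ρ M ε v n x⟫) := by
    unfold ip
    rw [integral_sub (ip_int hv.1.cont hv.1) (ip_int hU.cont hU)]
  have h2 : ∫ x, (⟪v x, v x⟫ - ⟪un φ ψ ρ M ε v n x, un φ ψ ρ M ε v n x⟫)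
      ≤ ∫ x in Metric.closedBall (0 : V) (rad M n), ⟪v x, v x⟫ := by
    rw [← integral_indicator Metric.isClosed_closedBall.measurableSet]
    refine integral_mono ((ip_int hv.1.cont hv.1).sub (ip_int hU.cont hU)) ?_ ?_
    · exact (ip_int hv.1.cont hv.1).indicator Metric.isClosed_closedBall.measurableSet
    · intro x
      simp only
      by_cases hx : x ∈ Metric.closedBall (0 : V) (rad M n)
      · rw [indicator_of_mem hx]
        have : 0 ≤ ⟪un φ ψ ρ M ε v n x, un φ ψ ρ M ε v n x⟫ := real_inner_self_nonneg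
        linarith
      · rw [indicator_of_notMem hx]
        have hx' : rad M n < ‖x‖ := by simpa using hx
        rw [un_out P S hv n x (by linarith [S.rad_pos n]), sub_self]
  have h3 : ∫ x in Metric.closedBall (0 : V) (rad M n), ⟪v x, v x⟫ ≤ C ^ 2 * vr (rad M n) := by
    refine (le_abs_self _).trans ?_
    rw [← Real.norm_eq_abs]
    refine norm_setIntegral_le_of_norm_le_const
      (isCompact_closedBall (0 : V) (rad M n)).measure_lt_top (fun x _ => ?_)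
    rw [real_inner_self_eq_norm_sq, Real.norm_eq_abs, abs_of_nonneg (sq_nonneg _)]
    exact pow_le_pow_left₀ (norm_nonneg _) (hC x) 2
  linarith

theorem tri_pump_le {Q v : V → V} (hQ : TF Q) (hv : TF v) {B : ℝ}
    (hB : ∀ x, ‖fderiv ℝ Q x‖ ≤ B) : |tri v Q v| ≤ B * ip v v := by
  unfold tri ip
  rw [← integral_const_mul, ← Real.norm_eq_abs]
  refine (norm_integral_le_integral_norm _).trans ?_
  refine integral_mono (tri_int hv.cont hQ hv.cont).norm ((ip_int hv.cont hv).const_mul B) ?_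
  intro x
  simp only [Real.norm_eq_abs]
  refine (abs_real_inner_le_norm _ _).trans ?_
  rw [real_inner_self_eq_norm_sq]
  have h1 := (fderiv ℝ Q x).le_opNorm (v x)
  have h2 := mul_le_mul_of_nonneg_right (hB x) (norm_nonneg (v x))
  nlinarith [norm_nonneg (v x)]

end

end Pool.Agent.H402R3
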