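import Mathlib
import Pool.Agent.H402R3.Unif
import Pool.Agent.H402R3.Coef

/-! Decay of the coefficients of solutions with bounded gradient. -/

open Set Finset Filter Topology

namespace Pool.Agent.H402R3

namespace Shell

variable {g μ slo shi κh : ℕ → ℝ} {R T : ℝ} {a e σ κ : ℕ → ℝ → ℝ}
  (S : Shell g μ slo shi κh R T a e σ κ)

include S

/-- the tail estimate when the increments of the primitive of the strain are bounded -/
theorem tail2 {A : ℕ → ℝ → ℝ}
    (hA : ∀ n, ∀ t ∈ Icc 0 T, HasDerivWithinAt (A n) (a n t) (Icc 0 T) t)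
    {n : ℕ} (h0 : ∀ l, n < l → a l 0 = 0) {η : ℝ}
    (hη : ∀ K, ∑ l ∈ Ico (n + 1) (K + 1), (2 * R * shi l + 4 * κh l * w g R l) ≤ η)
    (hη' : ∀ K, ∑ l ∈ Ico (n + 1) (K + 1), κh l ≤ η)
    {τ B : ℝ} (hτ : τ ∈ Icc 0 T) (hB0 : 0 ≤ B)
    (hinc : ∀ s ∈ Icc 0 τ, ∀ t ∈ Icc 0 τ, s ≤ t →
      (2 * ∑ m ∈ range (n + 1), g m * A m t) - (2 * ∑ m ∈ range (n + 1), g m * A m s) ≤ 2 * B)
    {t : ℝ} (ht : t ∈ Icc 0 τ) : e n t ≤ 2 * η * Real.exp (2 * B) := by
  have hη0 : 0 ≤ η := by simpa using hη' n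
  obtain ⟨C, hC⟩ := S.W_bdd
  have hC0 : 0 ≤ C := le_trans (abs_nonneg _) (hC 0 0 ⟨le_rfl, S.T_nonneg⟩)
  have hsubT : Icc 0 τ ⊆ Icc 0 T := Icc_subset_Icc le_rfl hτ.2
  have htT : t ∈ Icc 0 T := hsubT ht
  -- estimate for every ε
  have key : ∀ ε > 0, e n t ≤ (η + 4 * C * ε) * Real.exp (2 * B) + η + ε := by
    intro ε hε
    obtain ⟨n0, hn0⟩ := S.e_lim ε hε
    set K := max n n0 with hKdef
    have hnK : n ≤ K := le_max_left _ _
    have heK : ∀ t ∈ Icc 0 T, e K t ≤ ε := hn0 K (le_max_right _ _)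
    have hF : ∀ t ∈ Icc 0 τ, HasDerivWithinAt (fun t => ∑ l ∈ Ico (n + 1) (K + 1), a l t ^ 2)
        (∑ l ∈ Ico (n + 1) (K + 1), (2 * a l t ^ 1 *
          ((W g a l t - μ l) * a l t - g l * e l t + σ l t))) (Icc 0 τ) t := by
      intro t ht
      refine HasDerivWithinAt.fun_sum fun l _ => ?_
      have := ((S.deriv l t (hsubT ht)).mono hsubT).fun_pow 2
      simpa using this
    have hΓ : ∀ t ∈ Icc 0 τ, HasDerivWithinAt (fun t => 2 * ∑ m ∈ range (n + 1), g m * A m t)
        (2 * W g a (n + 1) t) (Icc 0 τ) t := by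
      intro t ht
      refine HasDerivWithinAt.const_mul 2 ?_
      unfold W
      exact HasDerivWithinAt.fun_sum fun m _ => ((hA m t (hsubT ht)).mono hsubT).const_mul (g m)
    have hle : ∀ t ∈ Icc 0 τ, (∑ l ∈ Ico (n + 1) (K + 1), (2 * a l t ^ 1 *
          ((W g a l t - μ l) * a l t - g l * e l t + σ l t)))
        ≤ (2 * W g a (n + 1) t) * (∑ l ∈ Ico (n + 1) (K + 1), a l t ^ 2) + (η + 4 * C * ε) := by
      intro t ht
      have htT := hsubT ht
      have hflux := S.flux hnK htT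
      have h1 : (∑ l ∈ Ico (n + 1) (K + 1), (2 * a l t ^ 1 *
          ((W g a l t - μ l) * a l t - g l * e l t + σ l t)))
          = 2 * (∑ l ∈ Ico (n + 1) (K + 1), (W g a l t * a l t ^ 2 - g l * a l t * e l t))
            + ∑ l ∈ Ico (n + 1) (K + 1), (2 * (σ l t * a l t - μ l * a l t ^ 2)) := by
        rw [mul_sum, ← sum_add_distrib]
        refine sum_congr rfl fun l _ => ?_
        ring
      rw [h1, hflux]
      have h2 : - (2 * (e K t * (W g a (K + 1) t - W g a (n + 1) t))) ≤ 4 * C * ε := by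
        have h3 := hC (K + 1) t htT
        have h4 := hC (n + 1) t htT
        have h5 := heK t htT
        have h6 := S.e_nonneg K t htT
        have h7 : -(2 * C) ≤ W g a (K + 1) t - W g a (n + 1) t := by
          have := abs_le.mp h3; have := abs_le.mp h4; linarith
        nlinarith
      have h3 : - (2 * ∑ l ∈ Ico (n + 1) (K + 1), κ l t * (W g a l t - W g a (n + 1) t))
          + ∑ l ∈ Ico (n + 1) (K + 1), (2 * (σ l t * a l t - μ l * a l t ^ 2)) ≤ η := by
        refine le_trans ?_ (hη K)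
        rw [mul_sum, ← sum_neg_distrib, ← sum_add_distrib]
        refine sum_le_sum fun l hl => ?_
        have hl1 : n + 1 ≤ l := (Finset.mem_Ico.mp hl).1
        have h4 := abs_le.mp (S.abs_W_le l htT)
        have h5 := abs_le.mp (S.abs_W_le (n + 1) htT)
        have h6 := S.w_mono hl1
        have h7 := S.κ_nonneg l t htT
        have h8 := S.κ_hi l t htT
        have h9 := S.w_nonneg l
        have h10 : - (2 * (κ l t * (W g a l t - W g a (n + 1) t))) ≤ 4 * κh l * w g R l := by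
          have h11 : -(2 * w g R l) ≤ W g a l t - W g a (n + 1) t := by linarith
          have h12 : κ l t * w g R l ≤ κh l * w g R l := mul_le_mul_of_nonneg_right h8 h9
          nlinarith
        have h11 : 2 * (σ l t * a l t - μ l * a l t ^ 2) ≤ 2 * R * shi l := by
          have h12 := abs_le.mp (S.a_bdd l t htT)
          have h13 : 0 ≤ σ l t := (S.slo_pos l).le.trans (S.σ_lo l t htT)
          have h14 := S.σ_hi l t htT
          have h15 : 0 ≤ μ l * a l t ^ 2 := mul_nonneg (S.μ_nonneg l) (sq_nonneg _)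
          have h16 : σ l t * a l t ≤ σ l t * R := mul_le_mul_of_nonneg_left h12.2 h13
          have h17 : σ l t * R ≤ shi l * R :=
            mul_le_mul_of_nonneg_right h14 (by linarith [S.R_ge])
          linarith
        linarith
      linarith
    have hg := gronwall_upper (f := fun t => ∑ l ∈ Ico (n + 1) (K + 1), a l t ^ 2)
      (h := η + 4 * C * ε) (B := 2 * B) (by positivity) hF hΓ hle hinc ht
      (by positivity)
    simp only [sub_zero] at hg
    have h0' : ∑ l ∈ Ico (n + 1) (K + 1), a l 0 ^ 2 = 0 := by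
      refine sum_eq_zero fun l hl => ?_
      rw [h0 l (by have := (Finset.mem_Ico.mp hl).1; omega)]
      norm_num
    rw [h0', zero_add] at hg
    have hg2 : ∑ l ∈ Ico (n + 1) (K + 1), a l t ^ 2 ≤ (η + 4 * C * ε) * Real.exp (2 * B) := by
      refine hg.trans ?_
      refine mul_le_mul_of_nonneg_right ?_ (Real.exp_pos _).le
      have : t ≤ 1 := htT.2.trans S.T_le
      have h0 : 0 ≤ η + 4 * C * ε := by positivity
      nlinarith [ht.1]
    rw [S.tail_split hnK htT]
    have hk : ∑ l ∈ Ico (n + 1) (K + 1), κ l t ≤ η :=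
      (sum_le_sum fun l _ => S.κ_hi l t htT).trans (hη' K)
    have := heK t htT
    linarith
  -- let ε → 0
  have hlim : e n t ≤ η * Real.exp (2 * B) + η := by
    refine le_of_forall_pos_le_add fun δ hδ => ?_
    have hden : 0 < 4 * C * Real.exp (2 * B) + 1 := by positivity
    have h1 := key (δ / (4 * C * Real.exp (2 * B) + 1)) (by positivity)
    have h2 : (η + 4 * C * (δ / (4 * C * Real.exp (2 * B) + 1))) * Real.exp (2 * B) + η
        + δ / (4 * C * Real.exp (2 * B) + 1) = η * Real.exp (2 * B) + η + δ := by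
      field_simp
      ring
    linarith
  have h1 : (1 : ℝ) ≤ Real.exp (2 * B) := Real.one_le_exp (by linarith)
  nlinarith


theorem tail3 {n : ℕ} (h0 : ∀ l, n < l → a l 0 = 0) {η : ℝ}
    (hη : ∀ K, ∑ l ∈ Ico (n + 1) (K + 1), (2 * R * shi l + 4 * κh l * w g R l) ≤ η)
    (hη' : ∀ K, ∑ l ∈ Ico (n + 1) (K + 1), κh l ≤ η) {C : ℝ} (hC0 : 0 ≤ C)
    (hC : ∀ n, ∀ t ∈ Icc 0 T, |W g a n t| ≤ C) {t : ℝ} (ht : t ∈ Icc 0 T) :
    e n t ≤ 2 * η * Real.exp (2 * C) := by
  have hA' : ∀ n, ∃ F : ℝ → ℝ, F 0 = 0 ∧ ∀ t ∈ Icc 0 T, HasDerivWithinAt F (a n t) (Icc 0 T) t :=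
    fun n => exists_primitive S.T_nonneg (S.cont n)
  choose A hA0 hA using hA'
  refine S.tail2 hA h0 hη hη' (τ := T) ⟨S.T_nonneg, le_rfl⟩ hC0 ?_ ht
  intro s hs t ht hst
  have hΓ : ∀ t ∈ Icc 0 T, HasDerivWithinAt (fun t => 2 * ∑ m ∈ range (n + 1), g m * A m t)
      (2 * W g a (n + 1) t) (Icc 0 T) t := by
    intro t ht
    refine HasDerivWithinAt.const_mul 2 ?_
    unfold W
    exact HasDerivWithinAt.fun_sum fun m _ => (hA m t ht).const_mul (g m)
  have h1 := le_of_deriv_le hΓ (fun t _ => hasDerivWithinAt_linear (2 * C) 0 (Icc 0 T) t)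
    (fun t ht => by
      have := (abs_le.mp (hC (n + 1) t ht)).2
      linarith) hs ht hst
  have h2 : 2 * C * (t - 0) - 2 * C * (s - 0) ≤ 2 * C := by
    have h3 : t - s ≤ 1 := by linarith [ht.2, hs.1, S.T_le]
    nlinarith
  exact h1.trans h2

end Shell
end Pool.Agent.H402R3
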