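import Mathlib
import Pool.Agent.H402R3.Coef

/-! Fields synthesised from rapidly decaying coefficients. -/

open Set MeasureTheory Filter Topology Finset
open scoped RealInnerProductSpace ContDiff

namespace Pool.Agent.H402R3

noncomputable def SS (φ : V → V) (M : ℕ → ℝ) (α : ℕ → ℝ) : V → V :=
  fun x => ∑' n, α n • sc (M n) φ x

section

variable {φ ρ ψ : V → V} {x₁ : V} {M ε b : ℕ → ℝ}

/-- rapidly decreasing weights -/
structure Wt (M b : ℕ → ℝ) : Prop where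
  pos : ∀ n, 0 < b n
  summ : ∀ j : ℕ, Summable (fun n => M n ^ j * b n)

theorem SS_out (P : Prof φ ρ ψ x₁) (S : Scl M ε) (α : ℕ → ℝ) (n : ℕ) (x : V)
    (h : 3 / 4 * rad M n < ‖x‖) : SS φ M α x = ∑ m ∈ range n, α m • sc (M m) φ x := by
  unfold SS
  refine tsum_eq_sum fun l hl => ?_
  rw [φ_out P S, smul_zero]
  have : n ≤ l := by simpa using hl
  have := S.rad_anti this
  linarith

theorem SS_smooth (P : Prof φ ρ ψ x₁) (S : Scl M ε) (hb : Wt M b) {α : ℕ → ℝ} {A : ℝ}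
    (hα : ∀ n, |α n| ≤ A * b n) : ContDiff ℝ ∞ (SS φ M α) := by
  unfold SS
  have hbd : ∀ k : ℕ, ∃ C, 0 ≤ C ∧ ∀ x, ‖iteratedFDeriv ℝ k φ x‖ ≤ C := by
    intro k
    have hc : HasCompactSupport (iteratedFDeriv ℝ k φ) := P.φcs.iteratedFDeriv k
    obtain ⟨C, hC⟩ := (P.φs.continuous_iteratedFDeriv (m := k)
      (by exact_mod_cast le_top)).bounded_above_of_compact_support hc
    exact ⟨C, (norm_nonneg _).trans (hC 0), hC⟩
  choose C hC0 hC using hbd
  refine contDiff_tsum (N := ⊤) (v := fun k n => (A * (M n ^ (3 + 2 * k) * b n)) * C k)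
    (f := fun n => fun x => α n • sc (M n) φ x) ?_ ?_ ?_
  · intro n
    exact (sc_cd P.φs).const_smul (α n)
  · intro k _
    exact ((hb.summ _).mul_left A).mul_right _
  · intro k n x _
    have h1 := sc_iter (S.M_pos n).le P.φs (hC k) x
    have h2 : (fun x => α n • sc (M n) φ x) = α n • sc (M n) φ := rfl
    have h3 : ContDiff ℝ k (sc (M n) φ) := (sc_cd P.φs).of_le (by exact_mod_cast le_top)
    rw [h2, iteratedFDeriv_const_smul_apply h3.contDiffAt, norm_smul, Real.norm_eq_abs]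
    have hM := S.M_pos n
    have h4 : 0 ≤ A * b n := (abs_nonneg _).trans (hα n)
    calc |α n| * ‖iteratedFDeriv ℝ k (sc (M n) φ) x‖ ≤ (A * b n) * (M n ^ (3 + 2 * k) * C k) :=
          mul_le_mul (hα n) h1 (norm_nonneg _) h4
      _ = _ := by ring

theorem SS_near (P : Prof φ ρ ψ x₁) (S : Scl M ε) (α : ℕ → ℝ) (n : ℕ) (x : V)
    (h : 3 / 4 * rad M n < ‖x‖) :
    SS φ M α =ᶠ[𝓝 x] ∑ m ∈ range n, α m • sc (M m) φ := by
  have : ∀ᶠ y in 𝓝 x, 3 / 4 * rad M n < ‖y‖ :=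
    continuous_norm.continuousAt.eventually (lt_mem_nhds h)
  refine this.mono fun y hy => ?_
  rw [SS_out P S α n y hy]
  simp

theorem fs_TF (P : Prof φ ρ ψ x₁) (S : Scl M ε) (α : ℕ → ℝ) (n : ℕ) :
    TF (∑ m ∈ range n, α m • sc (M m) φ) := TF.sum fun m _ => (φT P S m).smul _

theorem SS_div (P : Prof φ ρ ψ x₁) (S : Scl M ε) (hb : Wt M b) {α : ℕ → ℝ} {A : ℝ}
    (hα : ∀ n, |α n| ≤ A * b n) (x : V) : divg (SS φ M α) x = 0 := by
  have hd : Continuous (fderiv ℝ (SS φ M α)) :=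
    (SS_smooth P S hb hα).continuous_fderiv (by simp)
  have hc : Continuous (fun x => divg (SS φ M α) x) := by
    unfold divg
    fun_prop
  have h0 : EqOn (fun x => divg (SS φ M α) x) (fun _ => (0 : ℝ)) ({0}ᶜ : Set V) := by
    intro x hx
    obtain ⟨n, hn⟩ := exists_rad S (by simpa using hx)
    have h1 := SS_near P S α n x (by linarith [S.rad_pos n])
    simp only [divg]
    rw [h1.fderiv_eq]
    exact (fs_TF P S α n).dv x
  have h1 := Continuous.ext_on (dense_compl_singleton (0 : V)) hc continuous_const h0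
  exact congrFun h1 x

theorem SS_zero (P : Prof φ ρ ψ x₁) (S : Scl M ε) (α : ℕ → ℝ) (x : V) (hx : 3 < ‖x‖) :
    SS φ M α x = 0 := by
  rw [SS_out P S α 0 x (by linarith [S.rad_half 0])]
  simp

theorem SS_TF (P : Prof φ ρ ψ x₁) (S : Scl M ε) (hb : Wt M b) {α : ℕ → ℝ} {A : ℝ}
    (hα : ∀ n, |α n| ≤ A * b n) : TF (SS φ M α) where
  cd := (SS_smooth P S hb hα).of_le (by exact_mod_cast le_top)
  cs := HasCompactSupport.intro (isCompact_closedBall (0 : V) 3) fun x hx =>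
    SS_zero P S α x (by simpa using hx)
  dv := SS_div P S hb hα

/-- uniform bounds -/
theorem SS_bound (P : Prof φ ρ ψ x₁) (S : Scl M ε) (hM1 : ∀ n, 1 ≤ M n) (hb : Wt M b) :
    ∃ K, 0 ≤ K ∧ ∀ (α : ℕ → ℝ) (A : ℝ), 0 ≤ A → (∀ n, |α n| ≤ A * b n) →
      ∀ x, ‖SS φ M α x‖ ≤ A * K ∧ ‖fderiv ℝ (SS φ M α) x‖ ≤ A * K := by
  obtain ⟨b0, hb0, hb0'⟩ := cs_bound P.φT.cont (R := 3 / 4) P.φ0
  obtain ⟨b1, hb1, hb1'⟩ := cs_bound P.φT.contd (R := 3 / 4) (fderiv_zero_of P.φ0)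
  set Sg := ∑' n, M n ^ 5 * b n with hSg
  have hMp : ∀ n, 0 < M n := fun n => by linarith [hM1 n]
  have hSg0 : 0 ≤ Sg := tsum_nonneg fun n => by have := hb.pos n; have := hMp n; positivity
  have hpart : ∀ n, ∑ l ∈ range n, M l ^ 5 * b l ≤ Sg := fun n =>
    (hb.summ 5).sum_le_tsum _ (fun l _ => by have := hb.pos l; have := hMp l; positivity)
  refine ⟨Sg * (b0 + b1), by positivity, fun α A hA hα x => ?_⟩
  have hT := SS_TF P S hb hα
  constructor
  · refine bound_of_ne (f := fun x => ‖SS φ M α x‖) (by have := hT.cont; fun_prop)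
      (fun x hx => ?_) x
    obtain ⟨n, hn⟩ := exists_rad S hx
    rw [SS_out P S α n x (by linarith [S.rad_pos n])]
    have h1 : ∀ l ∈ range n, ‖α l • sc (M l) φ x‖ ≤ (A * (b0 + b1)) * (M l ^ 5 * b l) := by
      intro l _
      have h5 := hb.pos l
      have h6 := hMp l
      rw [norm_smul, Real.norm_eq_abs]
      unfold sc
      rw [norm_smul, Real.norm_eq_abs, abs_of_nonneg (by positivity : 0 ≤ M l ^ 3)]
      have h2 : M l ^ 3 ≤ M l ^ 5 := pow_le_pow_right₀ (hM1 l) (by norm_num)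
      calc |α l| * (M l ^ 3 * ‖φ (M l ^ 2 • x)‖) ≤ (A * b l) * (M l ^ 5 * (b0 + b1)) := by
            refine mul_le_mul (hα l) (mul_le_mul h2 ((hb0' _).trans (by linarith)) (norm_nonneg _)
              (by positivity)) (by positivity) (by positivity)
        _ = _ := by ring
    refine (norm_sum_le _ _).trans ((sum_le_sum h1).trans ?_)
    rw [← mul_sum]
    calc A * (b0 + b1) * ∑ l ∈ range n, M l ^ 5 * b l ≤ A * (b0 + b1) * Sg :=
          mul_le_mul_of_nonneg_left (hpart n) (by positivity)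
      _ = _ := by ring
  · refine bound_of_ne (f := fun x => ‖fderiv ℝ (SS φ M α) x‖) (by have := hT.contd; fun_prop)
      (fun x hx => ?_) x
    obtain ⟨n, hn⟩ := exists_rad S hx
    rw [(SS_near P S α n x (by linarith [S.rad_pos n])).fderiv_eq]
    have e1 : ∀ n, ‖fderiv ℝ (∑ m ∈ range n, α m • sc (M m) φ) x‖
        ≤ (A * (b0 + b1)) * ∑ l ∈ range n, (M l ^ 5 * b l) := by
      intro n
      induction n with
      | zero => simp
      | succ n ih =>
        have h5 := hb.pos n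
        have h6 := hMp n
        rw [sum_range_succ, fderiv_add ((fs_TF P S α n).diff x) (((φT P S n).smul _).diff x),
          fderiv_const_smul ((φT P S n).diff x), sc_fderiv P.φT.diff, sum_range_succ, mul_add]
        refine (norm_add_le _ _).trans (add_le_add ih ?_)
        rw [norm_smul, norm_smul, Real.norm_eq_abs, Real.norm_eq_abs,
          abs_of_nonneg (by positivity : 0 ≤ M n ^ 5)]
        calc |α n| * (M n ^ 5 * ‖fderiv ℝ φ (M n ^ 2 • x)‖) ≤ (A * b n) * (M n ^ 5 * (b0 + b1)) := by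
              refine mul_le_mul (hα n) (mul_le_mul_of_nonneg_left ((hb1' _).trans (by linarith))
                (by positivity)) (by positivity) (by positivity)
          _ = _ := by ring
    refine (e1 n).trans ?_
    calc A * (b0 + b1) * ∑ l ∈ range n, M l ^ 5 * b l ≤ A * (b0 + b1) * Sg :=
          mul_le_mul_of_nonneg_left (hpart n) (by positivity)
      _ = _ := by ring

/-- the synthesised field -/
noncomputable def Uf (φ ψ ρ : V → V) (M ε : ℕ → ℝ) (c : ℝ) (α : ℕ → ℝ) : V → V :=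
  c • PP ψ ρ M ε + SS φ M α

theorem Uf_TF (P : Prof φ ρ ψ x₁) (S : Scl M ε) (hb : Wt M b) {c : ℝ} {α : ℕ → ℝ} {A : ℝ}
    (hα : ∀ n, |α n| ≤ A * b n) : TF (Uf φ ψ ρ M ε c α) :=
  ((PP_TF P S).smul c).add (SS_TF P S hb hα)

theorem Uf_smooth (P : Prof φ ρ ψ x₁) (S : Scl M ε) (hb : Wt M b) {c : ℝ} {α : ℕ → ℝ} {A : ℝ}
    (hα : ∀ n, |α n| ≤ A * b n) : ContDiff ℝ ∞ (Uf φ ψ ρ M ε c α) :=
  ((PP_smooth P S).const_smul c).add (SS_smooth P S hb hα)

/-- truncation -/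
noncomputable def Ut (φ ψ ρ : V → V) (M ε : ℕ → ℝ) (c : ℝ) (α : ℕ → ℝ) (n : ℕ) : V → V :=
  c • PP ψ ρ M ε + ∑ m ∈ range n, α m • sc (M m) φ

theorem Ut_mem (c : ℝ) (α : ℕ → ℝ) (n : ℕ) :
    Ut φ ψ ρ M ε c α n ∈ Submodule.span ℝ (range (Fam φ ψ ρ M ε)) := by
  refine Submodule.add_mem _ (Submodule.smul_mem _ _ (Submodule.subset_span ⟨0, rfl⟩)) ?_
  exact Submodule.sum_mem _ fun m _ => Submodule.smul_mem _ _ (Submodule.subset_span ⟨m + 1, rfl⟩)

theorem Ut_TF (P : Prof φ ρ ψ x₁) (S : Scl M ε) (c : ℝ) (α : ℕ → ℝ) (n : ℕ) :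
    TF (Ut φ ψ ρ M ε c α n) := ((PP_TF P S).smul c).add (fs_TF P S α n)

theorem Uf_out (P : Prof φ ρ ψ x₁) (S : Scl M ε) (c : ℝ) (α : ℕ → ℝ) (n : ℕ) (x : V)
    (h : 3 / 4 * rad M n < ‖x‖) : (Uf φ ψ ρ M ε c α - Ut φ ψ ρ M ε c α n) x = 0 := by
  unfold Uf Ut
  simp [SS_out P S α n x h]

theorem Uf_diff (P : Prof φ ρ ψ x₁) (S : Scl M ε) (hb : Wt M b) (c : ℝ) {α : ℕ → ℝ} {A : ℝ}
    (hα : ∀ n, |α n| ≤ A * b n) (n : ℕ) :
    ∃ α' : ℕ → ℝ, (∀ m, |α' m| ≤ A * b m) ∧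
      Uf φ ψ ρ M ε c α - Ut φ ψ ρ M ε c α n = SS φ M α' := by
  refine ⟨fun m => if m < n then 0 else α m, fun m => ?_, ?_⟩
  · simp only
    split_ifs
    · rw [abs_zero]; exact (abs_nonneg _).trans (hα m)
    · exact hα m
  · have hα' : ∀ m, |(fun m => if m < n then 0 else α m) m| ≤ A * b m := fun m => by
      simp only
      split_ifs
      · rw [abs_zero]; exact (abs_nonneg _).trans (hα m)
      · exact hα m
    have c1 : Continuous (Uf φ ψ ρ M ε c α - Ut φ ψ ρ M ε c α n) :=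
      ((Uf_TF P S hb hα).sub (Ut_TF P S c α n)).cont
    have c2 := (SS_TF P S hb hα').cont
    refine Continuous.ext_on (dense_compl_singleton (0 : V)) c1 c2 fun x hx => ?_
    obtain ⟨N, hN⟩ := exists_rad S (by simpa using hx)
    have hN' : 3 / 4 * rad M (N + n) < ‖x‖ := by
      have := S.rad_anti (Nat.le_add_right N n)
      linarith [S.rad_pos (N + n)]
    rw [SS_out P S _ (N + n) x hN']
    unfold Uf Ut
    simp only [Pi.sub_apply, Pi.add_apply, Finset.sum_apply, Pi.smul_apply]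
    rw [SS_out P S _ (N + n) x hN', add_sub_add_left_eq_sub, Nat.add_comm N n,
      Finset.sum_range_add, Finset.sum_range_add]
    have e1 : ∑ m ∈ range n, (if m < n then 0 else α m) • sc (M m) φ x = 0 :=
      sum_eq_zero fun m hm => by rw [if_pos (mem_range.mp hm), zero_smul]
    have e2 : ∑ m ∈ range N, (if n + m < n then 0 else α (n + m)) • sc (M (n + m)) φ x
        = ∑ m ∈ range N, α (n + m) • sc (M (n + m)) φ x :=
      sum_congr rfl fun m _ => by rw [if_neg (by omega)]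
    rw [e1, e2]
    abel

theorem Uf_InX (P : Prof φ ρ ψ x₁) (S : Scl M ε) (hM1 : ∀ n, 1 ≤ M n) (hb : Wt M b) (c : ℝ)
    {α : ℕ → ℝ} {A : ℝ} (hA : 0 ≤ A) (hα : ∀ n, |α n| ≤ A * b n) :
    InX (Fam φ ψ ρ M ε) (Uf φ ψ ρ M ε c α) := by
  refine ⟨Uf_TF P S hb hα, fun η hη => ?_⟩
  obtain ⟨K, hK0, hK⟩ := SS_bound P S hM1 hb
  have h1 : Tendsto (fun n => (A * K) ^ 2 * vr (rad M n)) atTop (𝓝 0) := by
    simpa using (vr_rad_tendsto S).const_mul ((A * K) ^ 2)
  obtain ⟨n, hn⟩ := (h1.eventually (gt_mem_nhds hη)).exists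
  refine ⟨Ut φ ψ ρ M ε c α n, Ut_mem c α n, ?_⟩
  obtain ⟨α', hα', he⟩ := Uf_diff P S hb c hα n
  refine le_trans (le_abs_self _) (le_trans (int_le_vr (K := (A * K) ^ 2) (r := rad M n)
    (fun x _ => ?_) (fun x hx => ?_)) hn.le)
  · rw [abs_of_nonneg (sq_nonneg _)]
    refine pow_le_pow_left₀ (norm_nonneg _) ?_ 2
    have h2 := congrFun he x
    simp only [Pi.sub_apply] at h2
    rw [h2]
    exact (hK α' A hA hα' x).1
  · have h3 := Uf_out P S c α n x (by linarith [S.rad_pos n])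
    simp only [Pi.sub_apply] at h3
    rw [h3]; simp

theorem Ut_af (P : Prof φ ρ ψ x₁) (S : Scl M ε) (c : ℝ) (α : ℕ → ℝ) (n m : ℕ) (h : m < n) :
    ip (Ut φ ψ ρ M ε c α n) (sc (M m) φ) = α m * ip φ φ := by
  have hφ := φT P S m
  unfold Ut
  rw [ip_add_left ((PP_TF P S).smul c).cont (fs_TF P S α n).cont hφ, ip_smul_left, ip_φP P S,
    ip_sum_left (fun i _ => ((φT P S i).smul _).cont) hφ]
  simp only [ip_smul_left, ip_φφ' P S]
  simp only [mul_ite, mul_zero, sum_ite_eq', zero_add]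
  rw [if_pos (by simpa using h)]

theorem Uf_af (P : Prof φ ρ ψ x₁) (S : Scl M ε) (hb : Wt M b) (c : ℝ)
    {α : ℕ → ℝ} {A : ℝ} (hα : ∀ n, |α n| ≤ A * b n) (n : ℕ) :
    af φ M (Uf φ ψ ρ M ε c α) n = α n := by
  have hF := φ_pos P
  have hφ := φT P S n
  have hU := Uf_TF (c := c) P S hb hα
  have hT := Ut_TF (ψ := ψ) (ρ := ρ) (ε := ε) P S c α (n + 1)
  have hD := hU.sub hT
  have e1 : Uf φ ψ ρ M ε c α = Ut φ ψ ρ M ε c α (n + 1)
      + (Uf φ ψ ρ M ε c α - Ut φ ψ ρ M ε c α (n + 1)) := by abel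
  have e2 : ip (Uf φ ψ ρ M ε c α) (sc (M n) φ) = α n * ip φ φ := by
    have e3 : ip (Ut φ ψ ρ M ε c α (n + 1) + (Uf φ ψ ρ M ε c α - Ut φ ψ ρ M ε c α (n + 1)))
        (sc (M n) φ) = α n * ip φ φ := by
      rw [ip_add_left hT.cont hD.cont hφ, Ut_af P S c α (n + 1) n (by omega), ip_comm (_ - _),
        aff_ip (aff_small P S (fun x hx => Uf_out P S c α (n + 1) x
          (by linarith [S.rad_pos (n + 1)]))) hD, add_zero]
    rwa [← e1] at e3
  unfold af
  rw [e2, mul_div_cancel_right₀ _ hF.ne']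

theorem Uf_cf (P : Prof φ ρ ψ x₁) (S : Scl M ε) (hM1 : ∀ n, 1 ≤ M n) (hb : Wt M b) (c : ℝ)
    {α : ℕ → ℝ} {A : ℝ} (hA : 0 ≤ A) (hα : ∀ n, |α n| ≤ A * b n) :
    cf ψ ρ M ε (Uf φ ψ ρ M ε c α) = c := by
  have hG := PP_ip_pos P S
  have hP := PP_TF P S
  have hU := Uf_TF (c := c) P S hb hα
  obtain ⟨K, hK0, hK⟩ := SS_bound P S hM1 hb
  obtain ⟨B0, hB0, hB⟩ := cs_bound hP.cont (R := 3) (PP_zero P S)
  have e2 : ∀ n, |ip (Uf φ ψ ρ M ε c α) (PP ψ ρ M ε) - c * ip (PP ψ ρ M ε) (PP ψ ρ M ε)|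
      ≤ 0 + (A * K * B0) * vr (rad M n) := by
    intro n
    have hT := Ut_TF (ψ := ψ) (ρ := ρ) (ε := ε) P S c α n
    have hD := hU.sub hT
    obtain ⟨α', hα', he⟩ := Uf_diff P S hb c hα n
    have e3 : ip (Ut φ ψ ρ M ε c α n) (PP ψ ρ M ε) = c * ip (PP ψ ρ M ε) (PP ψ ρ M ε) := by
      unfold Ut
      rw [ip_add_left (hP.smul c).cont (fs_TF P S α n).cont hP, ip_smul_left,
        ip_sum_left (fun i _ => ((φT P S i).smul _).cont) hP]
      rw [sum_eq_zero, add_zero]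
      intro i _
      rw [ip_smul_left, ip_comm, ip_φP P S, mul_zero]
    have e4 : ip (Uf φ ψ ρ M ε c α) (PP ψ ρ M ε) - c * ip (PP ψ ρ M ε) (PP ψ ρ M ε)
        = ip (Uf φ ψ ρ M ε c α - Ut φ ψ ρ M ε c α n) (PP ψ ρ M ε) := by
      rw [ip_sub_left hU.cont hT.cont hP, e3]
    rw [e4, zero_add]
    unfold ip
    refine int_le_vr (fun x _ => ?_) (fun x hx => ?_)
    · refine (abs_real_inner_le_norm _ _).trans ?_
      rw [congrFun he x]
      exact mul_le_mul (hK α' A hA hα' x).1 (hB x) (norm_nonneg _) (by positivity)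
    · rw [Uf_out P S c α n x (by linarith [S.rad_pos n])]; simp
  have e5 := le_of_vr S e2
  have e6 := sub_eq_zero.mp (abs_eq_zero.mp (le_antisymm e5 (abs_nonneg _)))
  unfold cf
  rw [e6, mul_div_cancel_right₀ _ hG.ne']

/-- elements of the closed span with rapidly decaying coefficients are synthesised fields -/
theorem eq_Uf (P : Prof φ ρ ψ x₁) (S : Scl M ε) (hb : Wt M b) {v : V → V}
    (hv : InX (Fam φ ψ ρ M ε) v) {A : ℝ} (hα : ∀ n, |af φ M v n| ≤ A * b n) :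
    v = Uf φ ψ ρ M ε (cf ψ ρ M ε v) (af φ M v) := by
  refine Continuous.ext_on (dense_compl_singleton (0 : V)) hv.1.cont (Uf_TF P S hb hα).cont
    fun x hx => ?_
  obtain ⟨N, hN⟩ := exists_rad S (by simpa using hx)
  have hN' : 3 / 4 * rad M N < ‖x‖ := by linarith [S.rad_pos N]
  rw [rep P S hv N x hN']
  unfold Uf
  simp only [Pi.add_apply, Pi.smul_apply]
  rw [SS_out P S _ N x hN']

end

end Pool.Agent.H402R3
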